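import Mathlib
import Pool.Agent.TH891.SG.Gal2
import Pool.Agent.H387R2.UDefs

set_option autoImplicit false

/-! The average of the singular series over the patterns of an interval, helper891. -/

namespace Pool.Agent.TH891.SG

open Finset Pool.Agent.H387R2

/-- densities -/
noncomputable def cc (ν p : ℝ) : ℝ := (p - ν - 1) * p / ((p - ν) * (p - 1))
noncomputable def hh (ν p : ℝ) : ℝ := p / ((p - 1) * (p - ν))

lemma cc_nonneg {ν p : ℝ} (h1 : ν + 1 ≤ p) (hp : 2 ≤ p) : 0 ≤ cc ν p := by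
  unfold cc
  apply div_nonneg (mul_nonneg (by linarith) (by linarith)) (mul_nonneg (by linarith) (by linarith))

lemma cc_le_one {ν p : ℝ} (h1 : ν + 1 ≤ p) (hν : 0 ≤ ν) (hp : 2 ≤ p) : cc ν p ≤ 1 := by
  unfold cc
  rw [div_le_one (mul_pos (by linarith) (by linarith))]
  nlinarith

lemma hh_nonneg {ν p : ℝ} (h1 : ν + 1 ≤ p) (hp : 2 ≤ p) : 0 ≤ hh ν p := by
  unfold hh
  apply div_nonneg (by linarith) (mul_nonneg (by linarith) (by linarith))

lemma hh_le {ν p r : ℝ} (h1 : ν + 1 ≤ p) (hp : 2 ≤ p) (hr : ν ≤ r) (hr0 : 0 ≤ r) :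
    hh ν p ≤ 2 * (r + 1) / p := by
  unfold hh
  rw [div_le_div_iff₀ (mul_pos (by linarith) (by linarith)) (by linarith)]
  have h2 : p ≤ (r + 1) * (p - ν) := by
    rcases le_or_gt p (r + 1) with h | h
    · nlinarith
    · nlinarith
  have h3 : p ≤ 2 * (p - 1) := by linarith
  calc p * p ≤ (2 * (p - 1)) * ((r + 1) * (p - ν)) := by
        apply mul_le_mul h3 h2 (by linarith) (by linarith)
    _ = _ := by ring

lemma mean_one {ν p : ℝ} (h1 : ν + 1 ≤ p) (hp : 2 ≤ p) : cc ν p + hh ν p * (ν / p) = 1 := by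
  unfold cc hh
  have h2 : p - ν ≠ 0 := by linarith
  have h3 : p - 1 ≠ 0 := by linarith
  have h4 : p ≠ 0 := by linarith
  field_simp
  ring

lemma loc_insert {T : Finset ℕ} {p d : ℕ} (hp : p.Prime) (hd : d ∉ T) (hν : Uni.nuT T p < p) :
    Uni.locT (insert d T) p = Uni.locT T p *
      (cc (Uni.nuT T p) p + hh (Uni.nuT T p) p * (if d % p ∈ T.image (· % p) then 1 else 0)) := by
  have hp2 : (2 : ℝ) ≤ p := by exact_mod_cast hp.two_le
  have hν1 : (Uni.nuT T p : ℝ) + 1 ≤ p := by exact_mod_cast hν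
  have h2 : (p : ℝ) - Uni.nuT T p ≠ 0 := by linarith
  have h3 : (p : ℝ) - 1 ≠ 0 := by linarith
  have h4 : (p : ℝ) ≠ 0 := by linarith
  have h5 : (1 : ℝ) - 1 / p ≠ 0 := by
    rw [sub_ne_zero]
    intro h
    rw [eq_div_iff h4] at h
    linarith
  unfold Uni.locT cc hh
  rw [card_insert_of_notMem hd, pow_succ]
  have e6 : (1 - 1 / (p : ℝ)) = (p - 1) / p := by field_simp
  split_ifs with hmem
  · have e : Uni.nuT (insert d T) p = Uni.nuT T p := by
      unfold Uni.nuT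
      rw [image_insert, insert_eq_self.2 hmem]
    rw [e, e6]
    field_simp
    ring
  · have e : Uni.nuT (insert d T) p = Uni.nuT T p + 1 := by
      unfold Uni.nuT
      rw [image_insert, card_insert_of_notMem hmem]
    rw [e, e6]
    push_cast
    field_simp
    ring

lemma nuT_le_card (T : Finset ℕ) (p : ℕ) : Uni.nuT T p ≤ T.card := card_image_le

lemma nuT_le (T : Finset ℕ) {p : ℕ} (hp : 0 < p) : Uni.nuT T p ≤ p := by
  unfold Uni.nuT
  calc (T.image (· % p)).card ≤ (range p).card := by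
        apply card_le_card
        intro v hv
        obtain ⟨t, _, rfl⟩ := mem_image.1 hv
        exact mem_range.2 (Nat.mod_lt _ hp)
    _ = p := card_range p

lemma nuT_mono {S T : Finset ℕ} (h : S ⊆ T) (p : ℕ) : Uni.nuT S p ≤ Uni.nuT T p :=
  card_le_card (image_subset_image h)

lemma locT_nonneg (T : Finset ℕ) {p : ℕ} (hp : p.Prime) : 0 ≤ Uni.locT T p := by
  unfold Uni.locT
  have hp0 : (0:ℝ) < p := by exact_mod_cast hp.pos
  apply div_nonneg
  · rw [sub_nonneg, div_le_one hp0]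
    exact_mod_cast nuT_le T hp.pos
  · apply pow_nonneg
    rw [sub_nonneg, div_le_one hp0]
    exact_mod_cast hp.one_lt.le

lemma locT_eq_zero (T : Finset ℕ) {p : ℕ} (hp : p.Prime) (h : Uni.nuT T p = p) : Uni.locT T p = 0 := by
  unfold Uni.locT
  have hp0 : (p : ℝ) ≠ 0 := by exact_mod_cast hp.pos.ne'
  rw [h, div_self hp0, sub_self, zero_div]

/-- one step -/
theorem step (r : ℕ) (hr : 1 ≤ r) : ∃ C : ℝ, 0 < C ∧ ∀ P : Finset ℕ, (∀ p ∈ P, p.Prime) → ∀ (H : ℕ)
    (T : Finset ℕ), T ⊆ range H → T.card = r →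
    ∑ d ∈ range H \ T, ∏ p ∈ P, Uni.locT (insert d T) p ≤
      (∏ p ∈ P, Uni.locT T p) * (H + C * (H : ℝ) ^ (1 / 4 : ℝ)) := by
  classical
  set A : ℝ := 2 * (r + 1) with hA
  have hA0 : 0 ≤ A := by positivity
  set A' : ℝ := (1 + A) ^ r with hA'
  have hA'0 : 0 ≤ A' := by positivity
  refine ⟨Real.exp (A * r * Zc) + r * (2 * Real.exp (A' * Zc)), by positivity, ?_⟩
  intro P hP H T hTH hTc
  have hH : 0 < H := by
    have : 0 < T.card := by omega
    obtain ⟨t, ht⟩ := card_pos.1 this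
    have := mem_range.1 (hTH ht)
    omega
  have hH0 : (0:ℝ) < H := by exact_mod_cast hH
  by_cases hadm : ∀ p ∈ P, Uni.nuT T p < p
  swap
  · push Not at hadm
    obtain ⟨p, hp, hpp⟩ := hadm
    have hz : Uni.nuT T p = p := le_antisymm (nuT_le T (hP p hp).pos) hpp
    have h0 : ∏ p ∈ P, Uni.locT T p = 0 := prod_eq_zero hp (locT_eq_zero T (hP p hp) hz)
    rw [h0, zero_mul]
    apply le_of_eq
    apply sum_eq_zero
    intro d _
    apply prod_eq_zero hp
    apply locT_eq_zero _ (hP p hp)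
    exact le_antisymm (nuT_le _ (hP p hp).pos) (hpp.trans (nuT_mono (subset_insert d T) p))
  have e1 : ∀ d ∈ range H \ T, ∏ p ∈ P, Uni.locT (insert d T) p = (∏ p ∈ P, Uni.locT T p) *
      ∏ p ∈ P, (cc (Uni.nuT T p) p + hh (Uni.nuT T p) p * (if d % p ∈ T.image (· % p) then 1 else 0)) := by
    intro d hd
    rw [mem_sdiff] at hd
    rw [← prod_mul_distrib]
    apply prod_congr rfl
    intro p hp
    exact loc_insert (hP p hp) hd.2 (hadm p hp)
  rw [sum_congr rfl e1, ← mul_sum]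
  apply mul_le_mul_of_nonneg_left _ (prod_nonneg fun p hp => locT_nonneg T (hP p hp))
  have hp2 : ∀ p ∈ P, (2:ℝ) ≤ p := fun p hp => by exact_mod_cast (hP p hp).two_le
  have hν1 : ∀ p ∈ P, (Uni.nuT T p : ℝ) + 1 ≤ p := fun p hp => by exact_mod_cast hadm p hp
  have hνr : ∀ p, (Uni.nuT T p : ℝ) ≤ r := fun p => by
    have := nuT_le_card T p
    rw [hTc] at this
    exact_mod_cast this
  have key := abstract_avg P hP (fun p => T.image (· % p)) H (range H \ T) sdiff_subset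
    (fun p => cc (Uni.nuT T p) p) (fun p => hh (Uni.nuT T p) p)
    (fun p hp => cc_nonneg (hν1 p hp) (hp2 p hp))
    (fun p hp => cc_le_one (hν1 p hp) (Nat.cast_nonneg _) (hp2 p hp))
    (fun p hp => hh_nonneg (hν1 p hp) (hp2 p hp))
    (fun p hp => mean_one (hν1 p hp) (hp2 p hp)) hH0
  refine key.trans ?_
  have hhle : ∀ p ∈ P, hh (Uni.nuT T p) p ≤ A / p := fun p hp =>
    hh_le (hν1 p hp) (hp2 p hp) (hνr p) (Nat.cast_nonneg r)
  have hh0 : ∀ p ∈ P, 0 ≤ hh (Uni.nuT T p) p := fun p hp => hh_nonneg (hν1 p hp) (hp2 p hp)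
  -- first error term
  have t1 : ∏ p ∈ P, (1 + hh (Uni.nuT T p) p * ((T.image (· % p)).card : ℝ) * ((p : ℝ) ^ (1 / 4 : ℝ))⁻¹) ≤
      Real.exp (A * r * Zc) := by
    apply prod_exp_le P (by positivity)
    · intro p hp
      exact mul_nonneg (mul_nonneg (hh0 p hp) (Nat.cast_nonneg _)) (quarter_inv_nonneg p)
    · intro p hp
      have hp0 : 0 < p := (hP p hp).pos
      rw [← quarter_div p hp0]
      calc hh (Uni.nuT T p) p * ((T.image (· % p)).card : ℝ) * ((p : ℝ) ^ (1 / 4 : ℝ))⁻¹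
          ≤ (A / p) * r * ((p : ℝ) ^ (1 / 4 : ℝ))⁻¹ := by
            apply mul_le_mul_of_nonneg_right _ (quarter_inv_nonneg p)
            apply mul_le_mul (hhle p hp) (hνr p) (Nat.cast_nonneg _) (by positivity)
        _ = _ := by ring
  -- second error term
  have t2 : ∑ d ∈ range H \ T, ∏ p ∈ P.filter (fun p => d % p ∈ T.image (· % p)),
      (1 + hh (Uni.nuT T p) p * (p : ℝ) ^ (3 / 4 : ℝ)) ≤ r * (2 * (Real.exp (A' * Zc) * H)) := by
    have hterm : ∀ d ∈ range H \ T, ∏ p ∈ P.filter (fun p => d % p ∈ T.image (· % p)),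
        (1 + hh (Uni.nuT T p) p * (p : ℝ) ^ (3 / 4 : ℝ)) ≤ ∑ t ∈ T, Gm A' (Nat.dist d t) := by
      intro d hd
      rw [mem_sdiff] at hd
      have s1 : ∏ p ∈ P.filter (fun p => d % p ∈ T.image (· % p)),
          (1 + hh (Uni.nuT T p) p * (p : ℝ) ^ (3 / 4 : ℝ)) ≤
          ∏ p ∈ P.filter (fun p => d % p ∈ T.image (· % p)), (1 + A * ((p : ℝ) ^ (1 / 4 : ℝ))⁻¹) := by
        apply prod_le_prod
        · intro p hp
          have := mul_nonneg (hh0 p (mem_filter.1 hp).1) (Real.rpow_nonneg (Nat.cast_nonneg p) (3 / 4 : ℝ))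
          linarith
        · intro p hp
          have hp' := (mem_filter.1 hp).1
          have hp0 : (0:ℝ) < p := by exact_mod_cast (hP p hp').pos
          have e2 : (p : ℝ) ^ (3 / 4 : ℝ) / p = ((p : ℝ) ^ (1 / 4 : ℝ))⁻¹ := by
            have e3 : (p : ℝ) = (p : ℝ) ^ (3 / 4 : ℝ) * (p : ℝ) ^ (1 / 4 : ℝ) := by
              rw [← Real.rpow_add hp0]
              norm_num
            have e4 : (p : ℝ) ^ (3 / 4 : ℝ) ≠ 0 := (Real.rpow_pos_of_pos hp0 _).ne'
            nth_rw 2 [e3]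
            rw [div_mul_eq_div_div, div_self e4, one_div]
          have := mul_le_mul_of_nonneg_right (hhle p hp') (Real.rpow_nonneg (Nat.cast_nonneg p) (3 / 4 : ℝ))
          have e5 : A / p * (p : ℝ) ^ (3 / 4 : ℝ) = A * ((p : ℝ) ^ (1 / 4 : ℝ))⁻¹ := by
            rw [← e2]; ring
          linarith
      have s2 : ∏ p ∈ P.filter (fun p => d % p ∈ T.image (· % p)), (1 + A * ((p : ℝ) ^ (1 / 4 : ℝ))⁻¹) ≤
          ∏ p ∈ T.biUnion (fun t => (Nat.dist d t).primeFactors), (1 + A * ((p : ℝ) ^ (1 / 4 : ℝ))⁻¹) := by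
        have hone : ∀ p : ℕ, 1 ≤ 1 + A * ((p : ℝ) ^ (1 / 4 : ℝ))⁻¹ := fun p => by
          have := mul_nonneg hA0 (quarter_inv_nonneg p)
          linarith
        have hsub : P.filter (fun p => d % p ∈ T.image (· % p)) ⊆
            T.biUnion (fun t => (Nat.dist d t).primeFactors) := by
          intro p hp
          rw [mem_filter, mem_image] at hp
          obtain ⟨hp1, t, ht, htd⟩ := hp
          rw [mem_biUnion]
          refine ⟨t, ht, ?_⟩
          rw [Nat.mem_primeFactors]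
          refine ⟨hP p hp1, ?_, ?_⟩
          · have h7 : (p : ℤ) ∣ (d : ℤ) - t := by
              rw [← Nat.modEq_iff_dvd]
              exact htd
            have h8 : Nat.dist d t = ((d : ℤ) - t).natAbs := by
              unfold Nat.dist
              omega
            rw [h8]
            exact Int.natCast_dvd.1 h7
          · intro h0
            have := Nat.eq_of_dist_eq_zero h0
            rw [this] at hd
            exact hd.2 ht
        rw [← prod_sdiff hsub]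
        apply le_mul_of_one_le_left
        · exact prod_nonneg fun p _ => zero_le_one.trans (hone p)
        · exact one_le_prodR _ _ fun p _ => hone p
      have s3 : ∏ p ∈ T.biUnion (fun t => (Nat.dist d t).primeFactors), (1 + A * ((p : ℝ) ^ (1 / 4 : ℝ))⁻¹) ≤
          ∏ t ∈ T, Gm A (Nat.dist d t) := by
        apply prod_biUnion_le'
        intro t _ p _
        have := mul_nonneg hA0 (quarter_inv_nonneg p)
        linarith
      have s4 : ∏ t ∈ T, Gm A (Nat.dist d t) ≤ ∑ t ∈ T, Gm A (Nat.dist d t) ^ T.card :=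
        prod_le_sum_pow T (card_pos.1 (by omega)) _ (fun t _ => zero_le_one.trans (one_le_Gm hA0 _))
      refine s1.trans (s2.trans (s3.trans (s4.trans ?_)))
      apply sum_le_sum
      intro t _
      rw [hTc]
      exact Gm_pow r hA0 _
    refine (sum_le_sum hterm).trans ?_
    rw [sum_comm]
    have hG0 : ∀ n, 0 ≤ Gm A' n := fun n => zero_le_one.trans (one_le_Gm hA'0 n)
    calc ∑ t ∈ T, ∑ d ∈ range H \ T, Gm A' (Nat.dist d t)
        ≤ ∑ _t ∈ T, 2 * (Real.exp (A' * Zc) * H) := by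
          apply sum_le_sum
          intro t ht
          refine le_trans ?_ (sum_Gm_dist hA'0 H t (mem_range.1 (hTH ht)))
          apply sum_le_sum_of_subset_of_nonneg _ (fun _ _ _ => hG0 _)
          intro d hd
          rw [mem_sdiff] at hd
          rw [mem_erase]
          exact ⟨fun h => hd.2 (h ▸ ht), hd.1⟩
      _ = r * (2 * (Real.exp (A' * Zc) * H)) := by rw [sum_const, nsmul_eq_mul, hTc]
  have hq : ((H : ℝ) ^ (3 / 4 : ℝ))⁻¹ * H = (H : ℝ) ^ (1 / 4 : ℝ) := by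
    have e3 : (H : ℝ) = (H : ℝ) ^ (3 / 4 : ℝ) * (H : ℝ) ^ (1 / 4 : ℝ) := by
      rw [← Real.rpow_add hH0]
      norm_num
    have e4 : (H : ℝ) ^ (3 / 4 : ℝ) ≠ 0 := (Real.rpow_pos_of_pos hH0 _).ne'
    nth_rw 2 [e3]
    rw [← mul_assoc, inv_mul_cancel₀ e4, one_mul]
  have hQ0 : 0 ≤ (H : ℝ) ^ (1 / 4 : ℝ) := Real.rpow_nonneg hH0.le _
  have hI0 : 0 ≤ ((H : ℝ) ^ (3 / 4 : ℝ))⁻¹ := inv_nonneg.2 (Real.rpow_nonneg hH0.le _)
  have f1 := mul_le_mul_of_nonneg_left t1 hQ0
  have f2 := mul_le_mul_of_nonneg_left t2 hI0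
  have f3 : ((H : ℝ) ^ (3 / 4 : ℝ))⁻¹ * (r * (2 * (Real.exp (A' * Zc) * H))) =
      (r * (2 * Real.exp (A' * Zc))) * (H : ℝ) ^ (1 / 4 : ℝ) := by
    rw [← hq]; ring
  rw [f3] at f2
  have f4 : (H : ℝ) + (Real.exp (A * r * Zc) + r * (2 * Real.exp (A' * Zc))) * (H : ℝ) ^ (1 / 4 : ℝ) =
      H + (H : ℝ) ^ (1 / 4 : ℝ) * Real.exp (A * r * Zc) + (r * (2 * Real.exp (A' * Zc))) * (H : ℝ) ^ (1 / 4 : ℝ) := by
    ring
  rw [f4]
  linarith

/-- double counting -/
lemma sum_insert_pairs (S : Finset ℕ) (r : ℕ) (F : Finset ℕ → ℝ) :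
    ((r : ℝ) + 1) * ∑ T ∈ S.powersetCard (r + 1), F T =
      ∑ T ∈ S.powersetCard r, ∑ d ∈ S \ T, F (insert d T) := by
  classical
  have h1 : ((r : ℝ) + 1) * ∑ T ∈ S.powersetCard (r + 1), F T =
      ∑ T ∈ S.powersetCard (r + 1), ∑ _d ∈ T, F T := by
    rw [mul_sum]
    apply sum_congr rfl
    intro T hT
    rw [mem_powersetCard] at hT
    rw [sum_const, nsmul_eq_mul, hT.2]
    push_cast
    ring
  rw [h1, sum_sigma', sum_sigma']
  refine sum_nbij' (i := fun x => ⟨x.1.erase x.2, x.2⟩) (j := fun x => ⟨insert x.2 x.1, x.2⟩) ?_ ?_ ?_ ?_ ?_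
  · intro x hx
    rw [mem_sigma, mem_powersetCard] at hx
    rw [mem_sigma, mem_powersetCard, mem_sdiff]
    refine ⟨⟨(erase_subset _ _).trans hx.1.1, ?_⟩, hx.1.1 hx.2, notMem_erase _ _⟩
    rw [card_erase_of_mem hx.2, hx.1.2]
    omega
  · intro x hx
    rw [mem_sigma, mem_powersetCard, mem_sdiff] at hx
    rw [mem_sigma, mem_powersetCard]
    refine ⟨⟨insert_subset hx.2.1 hx.1.1, ?_⟩, mem_insert_self _ _⟩
    rw [card_insert_of_notMem hx.2.2, hx.1.2]
  · rintro ⟨T, d⟩ hx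
    rw [mem_sigma] at hx
    have hd : d ∈ T := hx.2
    change (⟨insert d (T.erase d), d⟩ : (_ : Finset ℕ) × ℕ) = ⟨T, d⟩
    rw [insert_erase hd]
  · rintro ⟨T, d⟩ hx
    rw [mem_sigma, mem_sdiff] at hx
    have hd : d ∉ T := hx.2.2
    change (⟨(insert d T).erase d, d⟩ : (_ : Finset ℕ) × ℕ) = ⟨T, d⟩
    rw [erase_insert hd]
  · rintro ⟨T, d⟩ hx
    rw [mem_sigma] at hx
    have hd : d ∈ T := hx.2
    change F T = F (insert d (T.erase d))
    rw [insert_erase hd]

/-- the truncated average -/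
theorem trunc_avg (k : ℕ) : ∃ C : ℝ, 0 < C ∧ ∀ P : Finset ℕ, (∀ p ∈ P, p.Prime) → ∀ H : ℕ, 1 ≤ H →
    ∑ T ∈ (range H).powersetCard (k + 1), ∏ p ∈ P, Uni.locT T p ≤
      (H : ℝ) * (H + C * (H : ℝ) ^ (1 / 4 : ℝ)) ^ k / (k + 1).factorial := by
  classical
  induction k with
  | zero =>
    refine ⟨1, one_pos, fun P hP H hH => ?_⟩
    have h1 : ∀ T ∈ (range H).powersetCard (0 + 1), ∏ p ∈ P, Uni.locT T p = 1 := by
      intro T hT
      rw [mem_powersetCard] at hT
      obtain ⟨t, rfl⟩ := card_eq_one.1 hT.2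
      apply prod_eq_one
      intro p hp
      unfold Uni.locT Uni.nuT
      rw [image_singleton, card_singleton, card_singleton, pow_one, Nat.cast_one]
      apply div_self
      have hp2 : (2 : ℝ) ≤ p := by exact_mod_cast (hP p hp).two_le
      rw [sub_ne_zero]
      intro h
      rw [eq_div_iff (by linarith)] at h
      linarith
    rw [sum_congr rfl h1, sum_const, card_powersetCard, card_range]
    simp
  | succ k ih =>
    obtain ⟨C1, hC1, h1⟩ := ih
    obtain ⟨C2, hC2, h2⟩ := step (k + 1) (by omega)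
    refine ⟨max C1 C2, lt_max_of_lt_left hC1, fun P hP H hH => ?_⟩
    have hH0 : (0:ℝ) < H := by exact_mod_cast hH
    have hQ0 : 0 ≤ (H : ℝ) ^ (1 / 4 : ℝ) := Real.rpow_nonneg hH0.le _
    have e := sum_insert_pairs (range H) (k + 1) (fun T => ∏ p ∈ P, Uni.locT T p)
    set B : ℝ := H + max C1 C2 * (H : ℝ) ^ (1 / 4 : ℝ) with hB
    have hB1 : H + C1 * (H : ℝ) ^ (1 / 4 : ℝ) ≤ B := by
      have := mul_le_mul_of_nonneg_right (le_max_left C1 C2) hQ0
      linarith
    have hB2 : H + C2 * (H : ℝ) ^ (1 / 4 : ℝ) ≤ B := by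
      have := mul_le_mul_of_nonneg_right (le_max_right C1 C2) hQ0
      linarith
    have hB0 : 0 ≤ B := le_trans (by positivity) hB1
    have h3 : ∑ T ∈ (range H).powersetCard (k + 1), ∑ d ∈ range H \ T, ∏ p ∈ P, Uni.locT (insert d T) p ≤
        B * ∑ T ∈ (range H).powersetCard (k + 1), ∏ p ∈ P, Uni.locT T p := by
      rw [mul_sum]
      apply sum_le_sum
      intro T hT
      rw [mem_powersetCard] at hT
      refine (h2 P hP H T hT.1 hT.2).trans ?_
      rw [mul_comm]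
      apply mul_le_mul_of_nonneg_right hB2 (prod_nonneg fun p hp => locT_nonneg T (hP p hp))
    have h4 := h1 P hP H hH
    have h5 : (H : ℝ) * (H + C1 * (H : ℝ) ^ (1 / 4 : ℝ)) ^ k / (k + 1).factorial ≤
        (H : ℝ) * B ^ k / (k + 1).factorial := by
      apply div_le_div_of_nonneg_right _ (by positivity)
      apply mul_le_mul_of_nonneg_left _ hH0.le
      exact pow_le_pow_left₀ (by positivity) hB1 k
    have h6 : ((k + 1 : ℕ) + 1 : ℝ) * ∑ T ∈ (range H).powersetCard (k + 1 + 1), ∏ p ∈ P, Uni.locT T p ≤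
        B * ((H : ℝ) * B ^ k / (k + 1).factorial) := by
      rw [e]
      exact h3.trans (mul_le_mul_of_nonneg_left (h4.trans h5) hB0)
    have hk0 : (0:ℝ) < ((k + 1 : ℕ) + 1 : ℝ) := by positivity
    have h7 : ∑ T ∈ (range H).powersetCard (k + 1 + 1), ∏ p ∈ P, Uni.locT T p ≤
        B * ((H : ℝ) * B ^ k / (k + 1).factorial) / ((k + 1 : ℕ) + 1 : ℝ) := by
      rw [le_div_iff₀ hk0, mul_comm]
      exact h6
    refine h7.trans (le_of_eq ?_)
    rw [Nat.factorial_succ (k + 1)]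
    have hf0 : ((k + 1).factorial : ℝ) ≠ 0 := by exact_mod_cast (k + 1).factorial_ne_zero
    push_cast
    field_simp
    ring

end Pool.Agent.TH891.SG
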