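import Mathlib
import Pool.Agent.TH891.SG.Gal3
import Pool.Agent.H387R2.U2

set_option autoImplicit false

/-! Average and moments of the singular series over the patterns of an interval, helper891. -/

namespace Pool.Agent.TH891.SG

open Finset Topology Pool.Agent.H387R2

/-- **the average of the singular series, with a power saving** -/
theorem CT_avg (k : ℕ) : ∃ C : ℝ, 0 < C ∧ ∀ H : ℕ, 1 ≤ H →
    ∑ T ∈ (range H).powersetCard (k + 1), Uni.CT T ≤
      (H : ℝ) * (H + C * (H : ℝ) ^ (1 / 4 : ℝ)) ^ k / (k + 1).factorial := by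
  classical
  obtain ⟨C, hC, h⟩ := trunc_avg k
  refine ⟨C, hC, fun H hH => ?_⟩
  have ht : Filter.Tendsto (fun s : Finset Nat.Primes => ∑ T ∈ (range H).powersetCard (k + 1), ∏ p ∈ s, Uni.locT T p)
      Filter.atTop (𝓝 (∑ T ∈ (range H).powersetCard (k + 1), Uni.CT T)) := by
    apply tendsto_finsetSum
    intro T _
    exact Uni.CT_hasProd T
  refine le_of_tendsto' ht fun s => ?_
  have h1 := h (s.image (fun p : Nat.Primes => (p : ℕ))) (by
    intro p hp
    obtain ⟨q, _, rfl⟩ := mem_image.1 hp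
    exact q.2) H hH
  refine le_trans (le_of_eq ?_) h1
  apply sum_congr rfl
  intro T _
  rw [prod_image]
  intro p _ q _ h
  exact Subtype.val_injective h

/-- `CT` against `Gm` -/
lemma CT_le_Gm (T : Finset ℕ) :
    Uni.CT T ≤ ∏ q ∈ Pool.Agent.H386R2.HL.prs T.card, Gm 2 (Nat.dist (Uni.en T q.1) (Uni.en T q.2)) := by
  rw [← Uni.CT_en]
  refine (Pool.Agent.H386R2.HL.singularSeries_le (Uni.en T) (Uni.en_inj T) 0).trans ?_
  have e2 : Pool.Agent.H386R2.HL.sy (Uni.en T) 0 = 1 := by
    unfold Pool.Agent.H386R2.HL.sy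
    rw [show Nat.primesBelow (0 + 1) = ∅ from by decide, prod_empty]
  rw [e2, one_mul]
  apply prod_le_prod
  · intro q _
    exact zero_le_one.trans (Pool.Agent.H386R2.HL.one_le_tt _ _)
  · intro q _
    unfold Pool.Agent.H386R2.HL.tt Gm
    rw [filter_true_of_mem (fun p hp => (Nat.prime_of_mem_primeFactors hp).pos)]
    apply prod_le_prod
    · intro p hp
      exact zero_le_one.trans (Pool.Agent.H386R2.HL.one_le_inv (Nat.prime_of_mem_primeFactors hp))
    · intro p hp
      have hpp := Nat.prime_of_mem_primeFactors hp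
      have hp2 : (2:ℝ) ≤ p := by exact_mod_cast hpp.two_le
      have h1 : (1 - 1 / (p : ℝ))⁻¹ ≤ 1 + 2 / p := by
        have a2 : 1 - 1 / (p : ℝ) = (p - 1) / p := by field_simp
        rw [a2, inv_div, div_le_iff₀ (by linarith)]
        have : (1 + 2 / (p:ℝ)) * (p - 1) = p + 1 - 2 / p := by field_simp; ring
        rw [this]
        have : 2 / (p:ℝ) ≤ 1 := by rw [div_le_one (by linarith)]; exact hp2
        linarith
      have h2 : 1 / (p : ℝ) ≤ ((p : ℝ) ^ (1 / 4 : ℝ))⁻¹ := by
        rw [one_div]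
        apply inv_anti₀ (Real.rpow_pos_of_pos (by linarith) _)
        calc (p : ℝ) ^ (1 / 4 : ℝ) ≤ (p : ℝ) ^ (1 : ℝ) :=
              Real.rpow_le_rpow_of_exponent_le (by linarith) (by norm_num)
          _ = p := Real.rpow_one _
      have h3 : 2 / (p : ℝ) = 2 * (1 / p) := by ring
      linarith

lemma card_through2 (H k : ℕ) {s t : ℕ} (hst : s ≠ t) :
    (((range H).powersetCard (k + 2)).filter (fun T => s ∈ T ∧ t ∈ T)).card ≤ H ^ k := by
  classical
  have h1 : (((range H).powersetCard (k + 2)).filter (fun T => s ∈ T ∧ t ∈ T)).card ≤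
      ((range H).powersetCard k).card := by
    apply card_le_card_of_injOn (fun T => (T.erase s).erase t)
    · intro T hT
      rw [mem_coe, mem_filter, mem_powersetCard] at hT
      obtain ⟨⟨a1, a2⟩, a3, a4⟩ := hT
      rw [mem_coe, mem_powersetCard]
      refine ⟨(erase_subset _ _).trans ((erase_subset _ _).trans a1), ?_⟩
      rw [card_erase_of_mem (mem_erase.2 ⟨hst.symm, a4⟩), card_erase_of_mem a3, a2]
      omega
    · intro T hT T' hT' he
      rw [mem_coe, mem_filter] at hT hT'
      simp only at he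
      have e1 := insert_erase (mem_erase.2 ⟨hst.symm, hT.2.2⟩)
      have e2 := insert_erase (mem_erase.2 ⟨hst.symm, hT'.2.2⟩)
      have e3 := insert_erase hT.2.1
      have e4 := insert_erase hT'.2.1
      rw [← e3, ← e4, ← e1, ← e2, he]
  refine h1.trans ?_
  rw [card_powersetCard, card_range]
  exact Nat.choose_le_pow _ _

/-- moments of the singular series -/
theorem CT_mom (k m : ℕ) : ∃ C : ℝ, 0 < C ∧ ∀ H : ℕ,
    ∑ T ∈ (range H).powersetCard (k + 1), Uni.CT T ^ m ≤ C * (H : ℝ) ^ (k + 1) := by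
  classical
  rcases k with _ | k
  · refine ⟨1, one_pos, fun H => ?_⟩
    have h1 : ∀ T ∈ (range H).powersetCard (0 + 1), Uni.CT T ^ m ≤ 1 := by
      intro T hT
      rw [mem_powersetCard] at hT
      apply pow_le_one₀ (Uni.CT_nonneg T)
      refine (CT_le_Gm T).trans ?_
      have : Pool.Agent.H386R2.HL.prs T.card = ∅ := by
        rw [hT.2]
        decide
      rw [this, prod_empty]
    refine (sum_le_sum h1).trans ?_
    rw [sum_const, card_powersetCard, card_range, nsmul_eq_mul, mul_one]
    simp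
  · set P := Pool.Agent.H386R2.HL.prs (k + 2) with hP
    set c : ℕ := P.card with hc
    set A : ℝ := (1 + 2) ^ (m * c) with hA
    have hA0 : 0 ≤ A := by positivity
    have hG0 : ∀ n, 0 ≤ Gm A n := fun n => zero_le_one.trans (one_le_Gm hA0 n)
    refine ⟨2 * Real.exp (A * Zc), by positivity, fun H => ?_⟩
    have hPne : P.Nonempty := by
      refine ⟨(⟨0, by omega⟩, ⟨1, by omega⟩), ?_⟩
      rw [hP]
      unfold Pool.Agent.H386R2.HL.prs
      rw [mem_filter]
      exact ⟨mem_univ _, by rw [Fin.lt_def]; simp⟩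
    set U := (range H ×ˢ range H).filter (fun u : ℕ × ℕ => u.1 ≠ u.2) with hU
    have hterm : ∀ T ∈ (range H).powersetCard (k + 2), Uni.CT T ^ m ≤
        ∑ u ∈ U, (if u.1 ∈ T ∧ u.2 ∈ T then Gm A (Nat.dist u.2 u.1) else 0) := by
      intro T hT
      rw [mem_powersetCard] at hT
      obtain ⟨hTH, hTc⟩ := hT
      have h1 := CT_le_Gm T
      have h2 : Uni.CT T ^ m ≤ (∏ q ∈ Pool.Agent.H386R2.HL.prs T.card,
          Gm 2 (Nat.dist (Uni.en T q.1) (Uni.en T q.2))) ^ m := pow_le_pow_left₀ (Uni.CT_nonneg T) h1 m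
      refine h2.trans ?_
      have hcard : (Pool.Agent.H386R2.HL.prs T.card).card = c := by rw [hTc]
      have hne : (Pool.Agent.H386R2.HL.prs T.card).Nonempty := by
        rw [← card_pos, hcard, hc]
        exact hPne.card_pos
      rw [← prod_pow]
      refine (prod_le_sum_pow _ hne _ ?_).trans ?_
      · intro q _
        exact pow_nonneg (zero_le_one.trans (one_le_Gm (by norm_num) _)) m
      · rw [hcard]
        have h3 : ∀ q ∈ Pool.Agent.H386R2.HL.prs T.card,
            (Gm 2 (Nat.dist (Uni.en T q.1) (Uni.en T q.2)) ^ m) ^ c ≤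
              Gm A (Nat.dist (Uni.en T q.2) (Uni.en T q.1)) := by
          intro q _
          rw [← pow_mul, Nat.dist_comm]
          exact Gm_pow (m * c) (by norm_num) _
        refine (sum_le_sum h3).trans ?_
        have hinj : Set.InjOn (fun q : Fin T.card × Fin T.card => (Uni.en T q.1, Uni.en T q.2))
            (Pool.Agent.H386R2.HL.prs T.card : Set (Fin T.card × Fin T.card)) := by
          intro q _ q' _ h
          simp only [Prod.mk.injEq] at h
          exact Prod.ext (Uni.en_inj T h.1) (Uni.en_inj T h.2)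
        have h4 := sum_image (f := fun u : ℕ × ℕ => Gm A (Nat.dist u.2 u.1)) hinj
        simp only at h4
        rw [← h4, ← sum_filter]
        apply sum_le_sum_of_subset_of_nonneg _ (fun _ _ _ => hG0 _)
        intro u hu
        obtain ⟨q, hq, rfl⟩ := mem_image.1 hu
        have hq' : q.1 < q.2 := (mem_filter.1 hq).2
        rw [mem_filter, hU, mem_filter, mem_product]
        exact ⟨⟨⟨hTH (Uni.en_mem T _), hTH (Uni.en_mem T _)⟩, fun h => hq'.ne (Uni.en_inj T h)⟩,
          Uni.en_mem T _, Uni.en_mem T _⟩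
    refine (sum_le_sum hterm).trans ?_
    rw [sum_comm]
    have h5 : ∀ u ∈ U, ∑ T ∈ (range H).powersetCard (k + 2),
        (if u.1 ∈ T ∧ u.2 ∈ T then Gm A (Nat.dist u.2 u.1) else 0) ≤ (H : ℝ) ^ k * Gm A (Nat.dist u.2 u.1) := by
      intro u hu
      rw [← sum_filter, sum_const, nsmul_eq_mul]
      apply mul_le_mul_of_nonneg_right _ (hG0 _)
      rw [hU, mem_filter] at hu
      exact_mod_cast card_through2 H k hu.2
    refine (sum_le_sum h5).trans ?_
    rw [← mul_sum]
    have h6 : ∑ u ∈ U, Gm A (Nat.dist u.2 u.1) ≤ H * (2 * (Real.exp (A * Zc) * H)) := by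
      rw [hU, sum_filter, sum_product]
      calc ∑ s ∈ range H, ∑ t ∈ range H, (if s ≠ t then Gm A (Nat.dist t s) else 0)
          ≤ ∑ _s ∈ range H, 2 * (Real.exp (A * Zc) * H) := by
            apply sum_le_sum
            intro s hs
            rw [← sum_filter, filter_ne]
            exact sum_Gm_dist hA0 H s (mem_range.1 hs)
        _ = _ := by rw [sum_const, card_range, nsmul_eq_mul]
    calc (H : ℝ) ^ k * ∑ u ∈ U, Gm A (Nat.dist u.2 u.1) ≤ (H : ℝ) ^ k * (H * (2 * (Real.exp (A * Zc) * H))) := by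
          gcongr
      _ = _ := by ring

end Pool.Agent.TH891.SG
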