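import Mathlib
import Pool.Agent.H442R2.EHI.PntErr

set_option autoImplicit false

/-! The second term of the prime number theorem, helper891. -/

namespace Pool.Agent.TH891.SG

open Finset Filter Topology Pool.Agent.H442R2.EHI

/-- `t / log t + t / log² t` -/
noncomputable def F2 (t : ℝ) : ℝ := t / Real.log t + t / Real.log t ^ 2

lemma F2_hasDeriv {t : ℝ} (ht : 2 ≤ t) :
    HasDerivAt F2 (1 / Real.log t - 2 / Real.log t ^ 3) t := by
  have hl : 0 < Real.log t := Real.log_pos (by linarith)
  have ht0 : t ≠ 0 := by linarith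
  have h1 : HasDerivAt (fun t : ℝ => t / Real.log t) ((1 * Real.log t - t * t⁻¹) / Real.log t ^ 2) t :=
    (hasDerivAt_id t).div (Real.hasDerivAt_log ht0) hl.ne'
  have h2 : HasDerivAt (fun t : ℝ => t / Real.log t ^ 2)
      ((1 * Real.log t ^ 2 - t * (2 * Real.log t ^ (2 - 1) * t⁻¹)) / (Real.log t ^ 2) ^ 2) t :=
    (hasDerivAt_id t).div ((Real.hasDerivAt_log ht0).pow 2) (pow_ne_zero _ hl.ne')
  have h3 := h1.add h2
  refine h3.congr_deriv ?_
  rw [mul_inv_cancel₀ ht0]
  field_simp
  ring

lemma F2_step {y : ℕ} (hy : 2 ≤ y) : F2 (y + 1) - F2 y ≤ 1 / Real.log y := by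
  have hy2 : (2:ℝ) ≤ y := by exact_mod_cast hy
  have hl : 0 < Real.log y := Real.log_pos (by linarith)
  have h := Convex.image_sub_le_mul_sub_of_deriv_le (f := F2) (D := Set.Icc (y:ℝ) (y + 1)) (convex_Icc _ _)
    (by
      intro t ht
      exact (F2_hasDeriv (hy2.trans ht.1)).continuousAt.continuousWithinAt)
    (by
      intro t ht
      rw [interior_Icc] at ht
      exact (F2_hasDeriv (hy2.trans ht.1.le)).differentiableAt.differentiableWithinAt)
    (C := 1 / Real.log y) (by
      intro t ht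
      rw [interior_Icc] at ht
      rw [(F2_hasDeriv (hy2.trans ht.1.le)).deriv]
      have hlt : Real.log y ≤ Real.log t := Real.log_le_log (by linarith) ht.1.le
      have h1 : 1 / Real.log t ≤ 1 / Real.log y := one_div_le_one_div_of_le hl hlt
      have h2 : 0 ≤ 2 / Real.log t ^ 3 := by
        have : 0 < Real.log t := by linarith
        positivity
      linarith)
    (y : ℝ) ⟨le_rfl, by linarith⟩ (y + 1) ⟨by linarith, le_rfl⟩ (by linarith)
  have e : (1 / Real.log y) * ((y : ℝ) + 1 - y) = 1 / Real.log y := by ring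
  rw [e] at h
  exact h

lemma F2_sum (y : ℕ) (hy : 2 ≤ y) : F2 (y + 1) - F2 2 ≤ lis y := by
  induction y, hy using Nat.le_induction with
  | base =>
    unfold lis
    have := F2_step (y := 2) le_rfl
    rw [Icc_self, sum_singleton]
    exact_mod_cast this
  | succ y hy ih =>
    have h1 := F2_step (y := y + 1) (by omega)
    have h2 : lis (y + 1) = lis y + 1 / Real.log ((y + 1 : ℕ) : ℝ) := by
      unfold lis
      rw [Finset.sum_Icc_succ_top (by omega)]
    rw [h2]
    push_cast at h1 ⊢
    linarith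

lemma F2_mono {y : ℕ} (hy : 5 ≤ y) : F2 y ≤ F2 (y + 1) := by
  have hy5 : (5:ℝ) ≤ y := by exact_mod_cast hy
  have h := Convex.mul_sub_le_image_sub_of_le_deriv (f := F2) (D := Set.Icc (y:ℝ) (y + 1)) (convex_Icc _ _)
    (by
      intro t ht
      exact (F2_hasDeriv (by linarith [ht.1])).continuousAt.continuousWithinAt)
    (by
      intro t ht
      rw [interior_Icc] at ht
      exact (F2_hasDeriv (by linarith [ht.1])).differentiableAt.differentiableWithinAt)
    (C := 0) (by
      intro t ht
      rw [interior_Icc] at ht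
      rw [(F2_hasDeriv (by linarith [ht.1])).deriv]
      have hlt : (3:ℝ) / 2 ≤ Real.log t := by
        rw [Real.le_log_iff_exp_le (by linarith [ht.1])]
        have h1 : Real.exp (3 / 2) ≤ 5 := by
          have h2 : Real.exp (3 / 2) ^ 2 = Real.exp 1 ^ 3 := by
            rw [← Real.exp_nat_mul, ← Real.exp_nat_mul]
            norm_num
          have h3 := Real.exp_one_lt_d9
          have h4 : Real.exp 1 ^ 3 ≤ 2.7182818286 ^ 3 := pow_le_pow_left₀ (Real.exp_pos _).le h3.le 3
          nlinarith [Real.exp_pos (3 / 2)]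
        linarith [ht.1]
      have hl : 0 < Real.log t := by linarith
      rw [sub_nonneg, div_le_div_iff₀ (by positivity) hl]
      have h9 : (2:ℝ) ≤ Real.log t ^ 2 := by nlinarith
      calc 2 * Real.log t ≤ Real.log t ^ 2 * Real.log t := mul_le_mul_of_nonneg_right h9 hl.le
        _ = 1 * Real.log t ^ 3 := by ring)
    (y : ℝ) ⟨le_rfl, by linarith⟩ (y + 1) ⟨by linarith, le_rfl⟩ (by linarith)
  linarith

/-- the prime number theorem with the second term, lower bound -/
theorem pi_low {η : ℝ} (hη : 0 < η) : ∀ᶠ N : ℕ in atTop,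
    (N / Real.log N) * (1 + (1 - η) / Real.log N) ≤ (((Icc 1 N).filter (fun p : ℕ => p.Prime)).card : ℝ) := by
  obtain ⟨C, hC⟩ := pnt_err 3
  have tN : Tendsto (fun N : ℕ => (N : ℝ)) atTop atTop := tendsto_natCast_atTop_atTop
  have tL : Tendsto (fun N : ℕ => Real.log (N : ℝ)) atTop atTop := Real.tendsto_log_atTop.comp tN
  have hsmall : ∀ᶠ x : ℝ in atTop, Real.log x ^ 2 ≤ η / (2 * (|F2 2| + 1)) * x := by
    have h := (isLittleO_log_rpow_rpow_atTop 2 (s := 1) one_pos).def
      (show 0 < η / (2 * (|F2 2| + 1)) by positivity)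
    filter_upwards [h, eventually_ge_atTop 1] with x hx hx1
    rw [Real.rpow_one, Real.norm_of_nonneg (Real.rpow_nonneg (Real.log_nonneg hx1) _),
      Real.norm_of_nonneg (by linarith)] at hx
    exact_mod_cast hx
  filter_upwards [eventually_ge_atTop 5, tL.eventually_ge_atTop (max 1 (2 * |C| / η)),
    tN.eventually hsmall] with N h5 h6 h7
  have hN5 : (5:ℝ) ≤ N := by exact_mod_cast h5
  have hN0 : (0:ℝ) < N := by linarith
  set L := Real.log (N:ℝ) with hL
  have hL1 : 1 ≤ L := (le_max_left _ _).trans h6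
  have hL0 : 0 < L := by linarith
  have hCL : 2 * |C| / η ≤ L := (le_max_right _ _).trans h6
  have k1 := hC N (by omega)
  have k2 := F2_sum N (by omega)
  have k3 := F2_mono h5
  have k4 : F2 N = N / L + N / L ^ 2 := rfl
  have k5 : |C * N / L ^ 3| ≤ (η / 2) * (N / L ^ 2) := by
    rw [abs_div, abs_mul, abs_of_pos (by positivity : (0:ℝ) < L ^ 3), abs_of_pos hN0,
      ← mul_div_assoc, div_le_div_iff₀ (by positivity) (by positivity)]
    rw [div_le_iff₀ hη] at hCL
    have : |C| ≤ η / 2 * L := by linarith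
    calc |C| * N * L ^ 2 ≤ (η / 2 * L) * N * L ^ 2 := by gcongr
      _ = η / 2 * N * L ^ 3 := by ring
  have k6 : F2 2 ≤ (η / 2) * (N / L ^ 2) := by
    have h8 : F2 2 ≤ |F2 2| := le_abs_self _
    refine h8.trans ?_
    rw [← mul_div_assoc, le_div_iff₀ (by positivity)]
    have h9 : |F2 2| * L ^ 2 ≤ |F2 2| * (η / (2 * (|F2 2| + 1)) * N) :=
      mul_le_mul_of_nonneg_left h7 (abs_nonneg _)
    refine h9.trans ?_
    have h10 : |F2 2| * (η / (2 * (|F2 2| + 1)) * N) = (|F2 2| / (|F2 2| + 1)) * (η / 2 * N) := by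
      field_simp
    rw [h10]
    have h11 : |F2 2| / (|F2 2| + 1) ≤ 1 := by
      rw [div_le_one (by positivity)]
      linarith
    calc (|F2 2| / (|F2 2| + 1)) * (η / 2 * N) ≤ 1 * (η / 2 * N) := by
          apply mul_le_mul_of_nonneg_right h11 (by positivity)
      _ = _ := one_mul _
  have k7 := (abs_le.1 k1).1
  have k8 := (abs_le.1 k5).2
  have e : (N / L) * (1 + (1 - η) / L) = N / L + N / L ^ 2 - η * (N / L ^ 2) := by
    field_simp
    ring
  rw [e]
  linarith

end Pool.Agent.TH891.SG
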