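import Mathlib
import Pool.Agent.TH891.SG.Gal4
import Pool.Agent.TH891.SG.Pnt
import Pool.Agent.H387R2.U1
import Pool.Agent.H387R2.U7

set_option autoImplicit false

/-! The mean of the counts of prime patterns, with the second order term, helper891. -/

namespace Pool.Agent.TH891.SG

open Finset Filter Topology Pool.Agent.H387R2

lemma ph_le_one (k : ℕ) {u : ℝ} (hu : 0 ≤ u) : Uni.ph k u ≤ 1 := by
  unfold Uni.ph
  apply prod_le_one
  · intro i _; exact le_max_left _ _
  · intro i _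
    apply max_le zero_le_one
    have : (0:ℝ) ≤ (i + 1 : ℝ) * u := by positivity
    linarith

lemma ph_ge (k : ℕ) {u : ℝ} (hu : 0 ≤ u) : 1 - (k * (k + 1) / 2 : ℝ) * u ≤ Uni.ph k u := by
  induction k with
  | zero => simp [Uni.ph]
  | succ k ih =>
    have e : Uni.ph (k + 1) u = Uni.ph k u * max 0 (1 - (k + 1 : ℝ) * u) := by
      unfold Uni.ph
      rw [prod_range_succ]
    have h0 := Uni.ph_nonneg k u
    have h1 := ph_le_one k hu
    have h2 : Uni.ph k u * (1 - (k + 1 : ℝ) * u) ≤ Uni.ph k u * max 0 (1 - (k + 1 : ℝ) * u) :=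
      mul_le_mul_of_nonneg_left (le_max_right _ _) h0
    have h3 : Uni.ph k u * ((k + 1 : ℝ) * u) ≤ 1 * ((k + 1 : ℝ) * u) :=
      mul_le_mul_of_nonneg_right h1 (by positivity)
    rw [e]
    push_cast
    have h4 : 1 - ((k + 1 : ℝ) * (k + 1 + 1) / 2) * u = (1 - (k * (k + 1) / 2 : ℝ) * u) - (k + 1 : ℝ) * u := by ring
    rw [h4]
    have h5 : Uni.ph k u * (1 - (k + 1 : ℝ) * u) = Uni.ph k u - Uni.ph k u * ((k + 1 : ℝ) * u) := by ring
    linarith

/-- double counting of the primes in the windows -/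
lemma count_low (k N H : ℕ) (hHN : H ≤ N) :
    (H : ℝ) * ((((Icc 1 N).filter (fun p : ℕ => p.Prime)).card : ℝ) - H - (k + 1)) ≤
      ∑ n ∈ Ioc (k + 1) (N - H), (((range H).filter (fun t => (n + t).Prime)).card : ℝ) := by
  classical
  have e1 : ∑ n ∈ Ioc (k + 1) (N - H), (((range H).filter (fun t => (n + t).Prime)).card : ℝ) =
      ∑ t ∈ range H, (((Ioc (k + 1) (N - H)).filter (fun n => (n + t).Prime)).card : ℝ) := by
    simp_rw [card_filter]
    push_cast
    rw [sum_comm]
  rw [e1]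
  have h1 : ∀ t ∈ range H, ((((Icc 1 N).filter (fun p : ℕ => p.Prime)).card : ℝ) - H - (k + 1)) ≤
      (((Ioc (k + 1) (N - H)).filter (fun n => (n + t).Prime)).card : ℝ) := by
    intro t ht
    rw [mem_range] at ht
    have h2 : ((Icc 1 N).filter (fun p : ℕ => p.Prime)).card ≤
        ((Icc 1 (k + 1 + t)) ∪ ((Ioc (N - H + t) N) ∪
          ((Ioc (k + 1) (N - H)).filter (fun n => (n + t).Prime)).image (· + t))).card := by
      apply card_le_card
      intro p hp
      rw [mem_filter, mem_Icc] at hp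
      rw [mem_union, mem_union, mem_Icc, mem_Ioc, mem_image]
      by_cases a1 : p ≤ k + 1 + t
      · left; exact ⟨hp.1.1, a1⟩
      · by_cases a2 : N - H + t < p
        · right; left; exact ⟨a2, hp.1.2⟩
        · right; right
          refine ⟨p - t, ?_, by omega⟩
          rw [mem_filter, mem_Ioc]
          have e : p - t + t = p := by omega
          rw [e]
          exact ⟨by omega, hp.2⟩
    have h3 := (card_union_le (Icc 1 (k + 1 + t)) ((Ioc (N - H + t) N) ∪
          ((Ioc (k + 1) (N - H)).filter (fun n => (n + t).Prime)).image (· + t)))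
    have h4 := card_union_le (Ioc (N - H + t) N)
          (((Ioc (k + 1) (N - H)).filter (fun n => (n + t).Prime)).image (· + t))
    have h5 : (((Ioc (k + 1) (N - H)).filter (fun n => (n + t).Prime)).image (· + t)).card ≤
        ((Ioc (k + 1) (N - H)).filter (fun n => (n + t).Prime)).card := card_image_le
    rw [Nat.card_Icc] at h3
    rw [Nat.card_Ioc] at h4
    have h6 : ((Icc 1 N).filter (fun p : ℕ => p.Prime)).card ≤
        ((Ioc (k + 1) (N - H)).filter (fun n => (n + t).Prime)).card + H + (k + 1) := by omega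
    have h7 : ((((Icc 1 N).filter (fun p : ℕ => p.Prime)).card : ℕ) : ℝ) ≤
        (((Ioc (k + 1) (N - H)).filter (fun n => (n + t).Prime)).card : ℝ) + H + (k + 1) := by exact_mod_cast h6
    linarith
  calc (H : ℝ) * ((((Icc 1 N).filter (fun p : ℕ => p.Prime)).card : ℝ) - H - (k + 1))
      = ∑ t ∈ range H, ((((Icc 1 N).filter (fun p : ℕ => p.Prime)).card : ℝ) - H - (k + 1)) := by
        rw [sum_const, card_range, nsmul_eq_mul]
    _ ≤ _ := sum_le_sum h1

/-- from the windows to the patterns -/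
lemma window (k N H : ℕ) (hHN : H ≤ N) {y : ℝ} (hy : 0 ≤ y)
    (h : y * N ≤ (H : ℝ) * ((((Icc 1 N).filter (fun p : ℕ => p.Prime)).card : ℝ) - H - (k + 1))) :
    ((N : ℝ) - H - (k + 1)) * Uni.GG k y ≤
      (k + 1).factorial * ∑ T ∈ (range H).powersetCard (k + 1), (Uni.piT T N : ℝ) := by
  classical
  have h1 := count_low k N H hHN
  have hc : ((Ioc (k + 1) (N - H)).card : ℝ) ≤ N := by
    rw [Nat.card_Ioc]
    exact_mod_cast (by omega : N - H - (k + 1) ≤ N)
  have hc2 : (N : ℝ) - H - (k + 1) ≤ ((Ioc (k + 1) (N - H)).card : ℝ) := by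
    rw [Nat.card_Ioc]
    have : N ≤ (N - H - (k + 1)) + H + (k + 1) := by omega
    have h2 : (N : ℝ) ≤ ((N - H - (k + 1) : ℕ) : ℝ) + H + (k + 1) := by exact_mod_cast this
    linarith
  have h2 := Uni.jensen_desc (Ioc (k + 1) (N - H)) (fun n => ((range H).filter (fun t => (n + t).Prime)).card) k hy
    ((mul_le_mul_of_nonneg_left hc hy).trans (h.trans h1))
  have h3 : ∑ n ∈ Ioc (k + 1) (N - H), ((((range H).filter (fun t => (n + t).Prime)).card).descFactorial (k + 1) : ℝ)
      = (k + 1).factorial * ∑ T ∈ (range H).powersetCard (k + 1), (Uni.cnt k (N - H) T : ℝ) := by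
    have h4 := Uni.sum_choose (Ioc (k + 1) (N - H)) (range H) (k + 1) (fun n t => (n + t).Prime)
    simp_rw [Nat.descFactorial_eq_factorial_mul_choose]
    push_cast
    rw [← mul_sum]
    congr 1
    unfold Uni.cnt
    exact_mod_cast h4
  calc ((N : ℝ) - H - (k + 1)) * Uni.GG k y ≤ ((Ioc (k + 1) (N - H)).card : ℝ) * Uni.GG k y :=
        mul_le_mul_of_nonneg_right hc2 (Uni.GG_nonneg k hy)
    _ ≤ _ := h2
    _ = _ := h3
    _ ≤ _ := by
        apply mul_le_mul_of_nonneg_left _ (by positivity)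
        apply sum_le_sum
        intro T hT
        rw [mem_powersetCard] at hT
        exact_mod_cast Uni.cnt_le_piT hT.2 (fun t ht => (mem_range.1 (hT.1 ht)).le) hHN

/-- the window length -/
noncomputable def HN (k N : ℕ) : ℕ := ⌊Real.log (N : ℝ) ^ (k + 1)⌋₊

/-- **the mean of the counts** -/
theorem many (k : ℕ) (hk : 1 ≤ k) : ∀ᶠ N : ℕ in atTop,
    (N / Real.log N ^ (k + 1)) * ((HN k N : ℝ) ^ (k + 1) / (k + 1).factorial) * (1 + 1 / (2 * Real.log N)) ≤
      ∑ T ∈ (range (HN k N)).powersetCard (k + 1), (Uni.piT T N : ℝ) := by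
  have tN : Tendsto (fun N : ℕ => (N : ℝ)) atTop atTop := tendsto_natCast_atTop_atTop
  have tL : Tendsto (fun N : ℕ => Real.log (N : ℝ)) atTop atTop := Real.tendsto_log_atTop.comp tN
  filter_upwards [pi_low (η := 1 / 20) (by norm_num), tL.eventually_ge_atTop (max 20 (k * (k + 1) / 2 : ℝ)),
    tL.eventually_ge_atTop ((k : ℝ) + 1),
    tN.eventually (Uni.log_pow_small ((k + 3 : ℕ) : ℝ) (η := 1 / 40) (by norm_num)), eventually_ge_atTop 1]
    with N h1 h2 h2' h3 hN1
  set L := Real.log (N:ℝ) with hL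
  have hL20 : 20 ≤ L := (le_max_left _ _).trans h2
  have hLk : (k * (k + 1) / 2 : ℝ) ≤ L := (le_max_right _ _).trans h2
  have hL0 : 0 < L := by linarith
  have hN0 : (0:ℝ) < N := by exact_mod_cast hN1
  rw [Real.rpow_natCast] at h3
  set H := HN k N with hH
  have hHdef : H = ⌊L ^ (k + 1)⌋₊ := rfl
  have hH1 : (H:ℝ) ≤ L ^ (k + 1) := by
    rw [hHdef]; exact Nat.floor_le (by positivity)
  have hH2 : L ^ (k + 1) - 1 ≤ H := by
    rw [hHdef]; exact (Nat.sub_one_lt_floor _).le
  have hLk1 : (1:ℝ) ≤ L ^ k := one_le_pow₀ (by linarith)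
  have hH3 : L ^ k * (L - 1) ≤ H := by
    have : L ^ k * (L - 1) = L ^ (k + 1) - L ^ k := by ring
    linarith
  have hH0 : (0:ℝ) < H := lt_of_lt_of_le (by
    have : 0 < L - 1 := by linarith
    positivity) hH3
  have hkL : (k:ℝ) + 1 ≤ L ^ (k + 1) := by
    calc (k:ℝ) + 1 ≤ L := h2'
      _ = L ^ 1 := (pow_one L).symm
      _ ≤ L ^ (k + 1) := pow_le_pow_right₀ (by linarith) (by omega)
  have hsm : (H:ℝ) + (k + 1) ≤ N / (20 * L ^ 2) := by
    rw [le_div_iff₀ (by positivity)]
    have a1 : ((H:ℝ) + (k + 1)) ≤ 2 * L ^ (k + 1) := by linarith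
    calc ((H:ℝ) + (k + 1)) * (20 * L ^ 2) ≤ (2 * L ^ (k + 1)) * (20 * L ^ 2) :=
          mul_le_mul_of_nonneg_right a1 (by positivity)
      _ = 40 * L ^ (k + 3) := by ring
      _ ≤ N := by linarith
  have hL2 : (1:ℝ) ≤ 20 * L ^ 2 := by nlinarith
  have hHN : H ≤ N := by
    have : (H:ℝ) ≤ N := by
      have a2 : (N:ℝ) / (20 * L ^ 2) ≤ N := div_le_self hN0.le hL2
      have a3 : (0:ℝ) ≤ (k:ℝ) + 1 := by positivity
      linarith
    exact_mod_cast this
  set y : ℝ := (H / L) * (1 + (9 / 10) / L) with hy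
  have hy0 : 0 < y := by positivity
  have hyH : H / L ≤ y := by
    rw [hy]
    have : (0:ℝ) ≤ (9 / 10) / L := by positivity
    have a0 : (0:ℝ) ≤ H / L := by positivity
    nlinarith
  have hwin := window k N H hHN (y := y) hy0.le (by
    rw [hy]
    have a1 : N / L * (1 + 9 / 10 / L) ≤ N / L * (1 + (1 - 1 / 20) / L) - N / (20 * L ^ 2) := by
      have : N / L * (1 + (1 - 1 / 20) / L) - N / (20 * L ^ 2) = N / L * (1 + 9 / 10 / L) := by
        field_simp
        ring
      linarith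
    calc (H / L) * (1 + (9 / 10) / L) * N = H * (N / L * (1 + 9 / 10 / L)) := by ring
      _ ≤ _ := by
          apply mul_le_mul_of_nonneg_left _ hH0.le
          linarith)
  have hfac : (0:ℝ) < ((k + 1).factorial : ℝ) := by exact_mod_cast (k + 1).factorial_pos
  -- the loss
  have hloss : (k * (k + 1) / 2 : ℝ) * (1 / y) ≤ (11 / 10) / L := by
    have b1 : 1 / y ≤ L / H := by
      calc 1 / y ≤ 1 / (H / L) := one_div_le_one_div_of_le (by positivity) hyH
        _ = L / H := by rw [one_div_div]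
    have b2 : L / H ≤ (11 / 10) / L ^ k := by
      rw [div_le_div_iff₀ hH0 (by positivity)]
      have b3 : L ≤ 11 / 10 * (L - 1) := by linarith
      calc L * L ^ k ≤ (11 / 10 * (L - 1)) * L ^ k := mul_le_mul_of_nonneg_right b3 (by positivity)
        _ = 11 / 10 * (L ^ k * (L - 1)) := by ring
        _ ≤ 11 / 10 * H := by linarith
    have b4 : (k * (k + 1) / 2 : ℝ) ≤ L ^ (k - 1) := by
      rcases Nat.lt_or_ge 1 k with h | h
      · calc (k * (k + 1) / 2 : ℝ) ≤ L := hLk
          _ = L ^ 1 := (pow_one L).symm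
          _ ≤ L ^ (k - 1) := pow_le_pow_right₀ (by linarith) (by omega)
      · have : k = 1 := by omega
        subst this
        norm_num
    have b5 : L ^ k = L ^ (k - 1) * L := by
      rw [← pow_succ]; congr 1; omega
    calc (k * (k + 1) / 2 : ℝ) * (1 / y) ≤ L ^ (k - 1) * ((11 / 10) / L ^ k) := by
          apply mul_le_mul b4 (b1.trans b2) (by positivity) (by positivity)
      _ = (11 / 10) / L := by
          rw [b5]; field_simp
  have hph := ph_ge k (u := 1 / y) (by positivity)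
  have hGG : (H / L) ^ (k + 1) * (1 + (6 / 10) / L) ≤ Uni.GG k y := by
    rw [Uni.GG_eq k hy0]
    have c1 : (1 + (18 / 10) / L) ≤ (1 + (9 / 10) / L) ^ (k + 1) := by
      have c2 := one_add_mul_le_pow (a := (9 / 10) / L) (by
        have : (0:ℝ) ≤ (9 / 10) / L := by positivity
        linarith) (k + 1)
      have hk1 : (1:ℝ) ≤ k := by exact_mod_cast hk
      have c3 : (18 / 10) / L ≤ ((k + 1 : ℕ) : ℝ) * ((9 / 10) / L) := by
        push_cast
        have : (0:ℝ) ≤ (9 / 10) / L := by positivity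
        have e : (18 / 10) / L = 2 * ((9 / 10) / L) := by ring
        rw [e]
        nlinarith
      linarith
    have c4 : 1 - (11 / 10) / L ≤ Uni.ph k (1 / y) := by linarith
    have c5 : (0:ℝ) ≤ 1 - (11 / 10) / L := by
      rw [sub_nonneg, div_le_one hL0]; linarith
    have c6 : (1 + (6 / 10) / L) ≤ (1 + (18 / 10) / L) * (1 - (11 / 10) / L) := by
      have e : (1 + (18 / 10) / L) * (1 - (11 / 10) / L) - (1 + (6 / 10) / L) =
          (L - 198 / 10) / (10 * L ^ 2) := by
        field_simp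
        ring
      have : 0 ≤ (L - 198 / 10) / (10 * L ^ 2) := div_nonneg (by linarith) (by positivity)
      linarith
    rw [hy, mul_pow, mul_assoc]
    apply mul_le_mul_of_nonneg_left _ (by positivity)
    calc (1 + (6 / 10) / L) ≤ (1 + (18 / 10) / L) * (1 - (11 / 10) / L) := c6
      _ ≤ (1 + (9 / 10) / L) ^ (k + 1) * Uni.ph k (1 / y) := by
          apply mul_le_mul c1 c4 c5 (by positivity)
      _ = _ := by rw [hy]
  have hN2 : (0:ℝ) ≤ (N:ℝ) - H - (k + 1) := by
    have a2 : (N:ℝ) / (20 * L ^ 2) ≤ N := div_le_self hN0.le hL2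
    linarith
  have hfin : (N:ℝ) * (H / L) ^ (k + 1) * (1 + 1 / (2 * L)) ≤
      (k + 1).factorial * ∑ T ∈ (range H).powersetCard (k + 1), (Uni.piT T N : ℝ) := by
    refine le_trans ?_ hwin
    refine le_trans ?_ (mul_le_mul_of_nonneg_left hGG hN2)
    have d1 : (N:ℝ) * (1 - 1 / (20 * L ^ 2)) ≤ (N:ℝ) - H - (k + 1) := by
      have : (N:ℝ) * (1 - 1 / (20 * L ^ 2)) = N - N / (20 * L ^ 2) := by ring
      linarith
    have d2 : (1 + 1 / (2 * L)) ≤ (1 - 1 / (20 * L ^ 2)) * (1 + (6 / 10) / L) := by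
      have e : (1 - 1 / (20 * L ^ 2)) * (1 + (6 / 10) / L) - (1 + 1 / (2 * L)) =
          (100 * L ^ 2 - 50 * L - 30) / (1000 * L ^ 3) := by
        field_simp
        ring
      have : 0 ≤ (100 * L ^ 2 - 50 * L - 30) / (1000 * L ^ 3) := div_nonneg (by nlinarith) (by positivity)
      linarith
    calc (N:ℝ) * (H / L) ^ (k + 1) * (1 + 1 / (2 * L))
        ≤ (N:ℝ) * (H / L) ^ (k + 1) * ((1 - 1 / (20 * L ^ 2)) * (1 + (6 / 10) / L)) :=
          mul_le_mul_of_nonneg_left d2 (by positivity)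
      _ = ((N:ℝ) * (1 - 1 / (20 * L ^ 2))) * ((H / L) ^ (k + 1) * (1 + (6 / 10) / L)) := by ring
      _ ≤ _ := mul_le_mul_of_nonneg_right d1 (by positivity)
  have e : (N / L ^ (k + 1)) * ((H : ℝ) ^ (k + 1) / (k + 1).factorial) * (1 + 1 / (2 * L)) =
      ((N:ℝ) * (H / L) ^ (k + 1) * (1 + 1 / (2 * L))) / (k + 1).factorial := by
    rw [div_pow]
    field_simp
  rw [e, div_le_iff₀ hfac]
  linarith

end Pool.Agent.TH891.SG
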