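import Mathlib
import Pool.Agent.TH891.SG.Cnt1
import Pool.Agent.W218.TX.Up

set_option autoImplicit false

/-! Many patterns with at least the predicted count, helper891. -/

namespace Pool.Agent.TH891.SG

open Finset Filter Topology Pool.Agent.H387R2

lemma one_add_pow_le (k : ℕ) {z : ℝ} (hz : 0 ≤ z) (hz1 : z ≤ 1) : (1 + z) ^ k ≤ 1 + (2 ^ k - 1) * z := by
  induction k with
  | zero => simp
  | succ k ih =>
    have h2 : (1:ℝ) ≤ 2 ^ k := one_le_pow₀ (by norm_num)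
    calc (1 + z) ^ (k + 1) = (1 + z) ^ k * (1 + z) := pow_succ _ _
      _ ≤ (1 + (2 ^ k - 1) * z) * (1 + z) := mul_le_mul_of_nonneg_right ih (by linarith)
      _ = 1 + z + (2 ^ k - 1) * z + (2 ^ k - 1) * z * z := by ring
      _ ≤ 1 + z + (2 ^ k - 1) * z + (2 ^ k - 1) * z * 1 := by
          have : 0 ≤ (2 ^ k - 1 : ℝ) * z := mul_nonneg (by linarith) hz
          have := mul_le_mul_of_nonneg_left hz1 this
          linarith
      _ = 1 + (2 ^ (k + 1) - 1) * z := by ring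

lemma HN_le (k N : ℕ) (hN : 1 ≤ N) : (HN k N : ℝ) ≤ Real.log N ^ (k + 1) := by
  unfold HN
  apply Nat.floor_le
  have : 0 ≤ Real.log N := Real.log_nonneg (by exact_mod_cast hN)
  positivity

lemma HN_ge (k N : ℕ) : Real.log N ^ (k + 1) - 1 ≤ (HN k N : ℝ) := by
  unfold HN
  exact (Nat.sub_one_lt_floor _).le

/-- the average of the singular series over the window -/
theorem avg_up (k : ℕ) (hk : 1 ≤ k) : ∀ᶠ N : ℕ in atTop,
    ∑ T ∈ (range (HN k N)).powersetCard (k + 1), Uni.CT T ≤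
      ((HN k N : ℝ) ^ (k + 1) / (k + 1).factorial) * (1 + 1 / (8 * Real.log N)) := by
  obtain ⟨C, hC, h⟩ := CT_avg k
  have tN : Tendsto (fun N : ℕ => (N : ℝ)) atTop atTop := tendsto_natCast_atTop_atTop
  have tL : Tendsto (fun N : ℕ => Real.log (N : ℝ)) atTop atTop := Real.tendsto_log_atTop.comp tN
  filter_upwards [tL.eventually_ge_atTop (max 4 (2 * (C * (16 * 2 ^ k)) ^ 2)), eventually_ge_atTop 1] with N h1 hN1
  set L := Real.log (N:ℝ) with hL
  have hL4 : 4 ≤ L := (le_max_left _ _).trans h1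
  have hLC : 2 * (C * (16 * 2 ^ k)) ^ 2 ≤ L := (le_max_right _ _).trans h1
  have hL0 : 0 < L := by linarith
  set H := HN k N with hH
  have hH2 : L ^ (k + 1) - 1 ≤ H := HN_ge k N
  have hLL : L ^ 2 ≤ L ^ (k + 1) := pow_le_pow_right₀ (by linarith) (by omega)
  have hH3 : (L / 2) ^ 2 ≤ H := by nlinarith
  have hH0 : (0:ℝ) < H := lt_of_lt_of_le (by positivity) hH3
  have hH1 : 1 ≤ H := by
    have : 0 < H := by exact_mod_cast hH0
    omega
  have hfac : (0:ℝ) < ((k + 1).factorial : ℝ) := by exact_mod_cast (k + 1).factorial_pos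
  refine (h H hH1).trans ?_
  -- `C H^{1/4} ≤ z H`
  set z : ℝ := 1 / (8 * 2 ^ k * L) with hz
  have h2k : (1:ℝ) ≤ 2 ^ k := one_le_pow₀ (by norm_num)
  have hz0 : 0 ≤ z := by positivity
  have hz1 : z ≤ 1 := by
    rw [hz, div_le_one (by positivity)]
    nlinarith
  have key : C * (H:ℝ) ^ (1 / 4 : ℝ) ≤ z * H := by
    have e1 : (H:ℝ) = (H:ℝ) ^ (1 / 4 : ℝ) * (H:ℝ) ^ (3 / 4 : ℝ) := by
      rw [← Real.rpow_add hH0]
      norm_num
    have e2 : C * (8 * 2 ^ k * L) ≤ (H:ℝ) ^ (3 / 4 : ℝ) := by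
      have e3 : (L / 2) * (L / 2) ^ (1 / 2 : ℝ) ≤ (H:ℝ) ^ (3 / 4 : ℝ) := by
        calc (L / 2) * (L / 2) ^ (1 / 2 : ℝ) = (L / 2) ^ (1 : ℝ) * (L / 2) ^ (1 / 2 : ℝ) := by rw [Real.rpow_one]
          _ = (L / 2) ^ (3 / 2 : ℝ) := by
              rw [← Real.rpow_add (by positivity)]; norm_num
          _ = ((L / 2) ^ 2) ^ (3 / 4 : ℝ) := by
              rw [← Real.rpow_natCast, ← Real.rpow_mul (by positivity)]; norm_num
          _ ≤ _ := Real.rpow_le_rpow (by positivity) hH3 (by norm_num)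
      have e4 : C * (16 * 2 ^ k) ≤ (L / 2) ^ (1 / 2 : ℝ) := by
        rw [← Real.sqrt_eq_rpow]
        apply Real.le_sqrt_of_sq_le
        linarith
      calc C * (8 * 2 ^ k * L) = (L / 2) * (C * (16 * 2 ^ k)) := by ring
        _ ≤ (L / 2) * (L / 2) ^ (1 / 2 : ℝ) := mul_le_mul_of_nonneg_left e4 (by positivity)
        _ ≤ _ := e3
    have e5 : C ≤ z * (H:ℝ) ^ (3 / 4 : ℝ) := by
      rw [hz, one_div, inv_mul_eq_div, le_div_iff₀ (by positivity)]
      exact e2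
    calc C * (H:ℝ) ^ (1 / 4 : ℝ) ≤ (z * (H:ℝ) ^ (3 / 4 : ℝ)) * (H:ℝ) ^ (1 / 4 : ℝ) :=
          mul_le_mul_of_nonneg_right e5 (by positivity)
      _ = z * ((H:ℝ) ^ (1 / 4 : ℝ) * (H:ℝ) ^ (3 / 4 : ℝ)) := by ring
      _ = z * H := by rw [← e1]
  have k1 : ((H:ℝ) + C * (H:ℝ) ^ (1 / 4 : ℝ)) ^ k ≤ (H:ℝ) ^ k * (1 + 1 / (8 * L)) := by
    calc ((H:ℝ) + C * (H:ℝ) ^ (1 / 4 : ℝ)) ^ k ≤ ((H:ℝ) * (1 + z)) ^ k := by
          apply pow_le_pow_left₀ (by positivity)
          linarith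
      _ = (H:ℝ) ^ k * (1 + z) ^ k := mul_pow _ _ _
      _ ≤ (H:ℝ) ^ k * (1 + (2 ^ k - 1) * z) := mul_le_mul_of_nonneg_left (one_add_pow_le k hz0 hz1) (by positivity)
      _ ≤ (H:ℝ) ^ k * (1 + 1 / (8 * L)) := by
          apply mul_le_mul_of_nonneg_left _ (by positivity)
          have : (2 ^ k - 1 : ℝ) * z ≤ 2 ^ k * z := mul_le_mul_of_nonneg_right (by linarith) hz0
          have e : (2:ℝ) ^ k * z = 1 / (8 * L) := by
            rw [hz]; field_simp
          linarith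
  calc (H:ℝ) * ((H:ℝ) + C * (H:ℝ) ^ (1 / 4 : ℝ)) ^ k / (k + 1).factorial
      ≤ (H:ℝ) * ((H:ℝ) ^ k * (1 + 1 / (8 * L))) / (k + 1).factorial := by
        apply div_le_div_of_nonneg_right _ hfac.le
        exact mul_le_mul_of_nonneg_left k1 hH0.le
    _ = _ := by ring

open Classical in
/-- the patterns whose count is at least `τ + 1/(16 log N)` times the prediction -/
noncomputable def goodT (k N : ℕ) (τ : ℝ) : Finset (Finset ℕ) :=
  ((range (HN k N)).powersetCard (k + 1)).filter (fun T => 0 < Uni.CT T ∧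
    (τ + 1 / (16 * Real.log N)) * ((N / Real.log N ^ (k + 1)) * Uni.CT T) ≤ Uni.piT T N)

/-- the weight of the good patterns -/
theorem good_weight (k : ℕ) (hk : 1 ≤ k) : ∃ B : ℝ, 0 < B ∧ ∀ᶠ N : ℕ in atTop, ∀ τ : ℝ, 0 ≤ τ → τ ≤ 1 →
    ((HN k N : ℝ) ^ (k + 1) / (k + 1).factorial) * ((1 - τ) + 1 / (4 * Real.log N)) ≤
      B * ∑ T ∈ goodT k N τ, Uni.CT T := by
  classical
  obtain ⟨B, hB, hup⟩ := Pool.Agent.W218.TX.pi_upper k
  refine ⟨B, hB, ?_⟩
  have tN : Tendsto (fun N : ℕ => (N : ℝ)) atTop atTop := tendsto_natCast_atTop_atTop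
  have tL : Tendsto (fun N : ℕ => Real.log (N : ℝ)) atTop atTop := Real.tendsto_log_atTop.comp tN
  filter_upwards [many k hk, avg_up k hk, hup ((k + 1 : ℕ) : ℝ), tL.eventually_ge_atTop 1,
    eventually_ge_atTop 1] with N h1 h2 h3 h4 hN1
  intro τ hτ0 hτ1
  set L := Real.log (N:ℝ) with hL
  have hL0 : 0 < L := by linarith
  have hN0 : (0:ℝ) < N := by exact_mod_cast hN1
  set H := HN k N with hH
  set V : ℝ := N / L ^ (k + 1) with hV
  have hV0 : 0 < V := by positivity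
  set P : ℝ := (H : ℝ) ^ (k + 1) / (k + 1).factorial with hP
  have hP0 : 0 ≤ P := by positivity
  set A := (range H).powersetCard (k + 1) with hA
  have hT : ∀ T ∈ A, (Uni.piT T N : ℝ) ≤ B * (V * Uni.CT T) := by
    intro T hT
    rw [hA, mem_powersetCard] at hT
    apply h3 T hT.2
    intro t ht
    have h5 := mem_range.1 (hT.1 ht)
    rw [Real.rpow_natCast]
    have h6 : (t:ℝ) ≤ H := by exact_mod_cast h5.le
    exact h6.trans (HN_le k N hN1)
  set σ : ℝ := τ + 1 / (16 * L) with hσ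
  have hσ0 : 0 ≤ σ := by positivity
  have hsplit : ∑ T ∈ A, (Uni.piT T N : ℝ) ≤ ∑ T ∈ A, σ * (V * Uni.CT T) +
      ∑ T ∈ goodT k N τ, B * (V * Uni.CT T) := by
    unfold goodT
    rw [← hA, sum_filter, ← sum_add_distrib]
    apply sum_le_sum
    intro T hTA
    have hCT := Uni.CT_nonneg T
    have hup' := hT T hTA
    split_ifs with hg
    · have : 0 ≤ σ * (V * Uni.CT T) := by positivity
      linarith
    · rw [add_zero]
      rw [not_and_or] at hg
      rcases hg with hg | hg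
      · have : Uni.CT T = 0 := le_antisymm (not_lt.1 hg) hCT
        rw [this] at hup' ⊢
        simpa using hup'
      · exact (not_le.1 hg).le
  have e1 : ∑ T ∈ A, σ * (V * Uni.CT T) = σ * V * ∑ T ∈ A, Uni.CT T := by
    rw [mul_sum]; exact sum_congr rfl fun T _ => by ring
  have e2 : ∑ T ∈ goodT k N τ, B * (V * Uni.CT T) = V * (B * ∑ T ∈ goodT k N τ, Uni.CT T) := by
    rw [mul_sum, mul_sum]; exact sum_congr rfl fun T _ => by ring
  rw [e1, e2] at hsplit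
  have h5 : σ * V * ∑ T ∈ A, Uni.CT T ≤ σ * V * (P * (1 + 1 / (8 * L))) :=
    mul_le_mul_of_nonneg_left h2 (by positivity)
  have h6 : V * (P * (1 + 1 / (2 * L)) - σ * (P * (1 + 1 / (8 * L)))) ≤ V * (B * ∑ T ∈ goodT k N τ, Uni.CT T) := by
    have : V * P * (1 + 1 / (2 * L)) ≤ ∑ T ∈ A, (Uni.piT T N : ℝ) := h1
    calc V * (P * (1 + 1 / (2 * L)) - σ * (P * (1 + 1 / (8 * L))))
        = V * P * (1 + 1 / (2 * L)) - σ * V * (P * (1 + 1 / (8 * L))) := by ring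
      _ ≤ _ := by linarith
  have h7 := le_of_mul_le_mul_left h6 hV0
  refine le_trans ?_ h7
  have h8 : σ * (1 + 1 / (8 * L)) ≤ τ + 1 / (4 * L) := by
    rw [hσ]
    have i1 : τ * (1 / (8 * L)) ≤ 1 * (1 / (8 * L)) := mul_le_mul_of_nonneg_right hτ1 (by positivity)
    have i2 : 1 / (16 * L) * (1 / (8 * L)) ≤ 1 / (16 * L) * 1 := by
      apply mul_le_mul_of_nonneg_left _ (by positivity)
      rw [div_le_one (by positivity)]; linarith
    have i3 : (1:ℝ) / (8 * L) = 2 * (1 / (16 * L)) := by field_simp; norm_num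
    have i4 : (1:ℝ) / (4 * L) = 4 * (1 / (16 * L)) := by field_simp; norm_num
    have i5 : (τ + 1 / (16 * L)) * (1 + 1 / (8 * L)) =
      τ + τ * (1 / (8 * L)) + 1 / (16 * L) + 1 / (16 * L) * (1 / (8 * L)) := by ring
    rw [i5, i4]
    linarith
  have h9 : P * (σ * (1 + 1 / (8 * L))) ≤ P * (τ + 1 / (4 * L)) := mul_le_mul_of_nonneg_left h8 hP0
  have e3 : P * (1 + 1 / (2 * L)) - σ * (P * (1 + 1 / (8 * L))) =
      P * (1 + 1 / (2 * L)) - P * (σ * (1 + 1 / (8 * L))) := by ring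
  rw [e3]
  have e4 : (1:ℝ) / (2 * L) = 2 * (1 / (4 * L)) := by field_simp; norm_num
  have e5 : P * (1 + 1 / (2 * L)) - P * (τ + 1 / (4 * L)) = P * ((1 - τ) + 1 / (4 * L)) := by
    rw [e4]; ring
  linarith

/-- the number of the good patterns -/
theorem good_card (k : ℕ) (hk : 1 ≤ k) (n : ℕ) (hn : 1 ≤ n) : ∃ κ : ℝ, 0 < κ ∧ ∀ᶠ N : ℕ in atTop,
    ∀ τ : ℝ, 0 ≤ τ → τ ≤ 1 →
    κ * ((1 - τ) + 1 / (4 * Real.log N)) ^ (1 + 1 / (n : ℝ)) * (HN k N : ℝ) ^ (k + 1) ≤ ((goodT k N τ).card : ℝ) := by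
  classical
  obtain ⟨B, hB, hw⟩ := good_weight k hk
  obtain ⟨C, hC, hm⟩ := CT_mom k (n + 1)
  have hfac : (0:ℝ) < ((k + 1).factorial : ℝ) := by exact_mod_cast (k + 1).factorial_pos
  have hn0 : (0:ℝ) < n := by exact_mod_cast hn
  set c : ℝ := 1 / ((k + 1).factorial * B) with hc
  have hc0 : 0 < c := by positivity
  set κ : ℝ := (c ^ (n + 1) / C) ^ (1 / (n : ℝ)) with hκ
  have hκ0 : 0 < κ := by positivity
  have tN : Tendsto (fun N : ℕ => (N : ℝ)) atTop atTop := tendsto_natCast_atTop_atTop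
  have tL : Tendsto (fun N : ℕ => Real.log (N : ℝ)) atTop atTop := Real.tendsto_log_atTop.comp tN
  refine ⟨κ, hκ0, ?_⟩
  filter_upwards [hw, tL.eventually_ge_atTop 1] with N h1 hL1
  intro τ hτ0 hτ1
  have h2 := h1 τ hτ0 hτ1
  set L := Real.log (N:ℝ) with hL
  have hL0 : 0 < L := by linarith
  set H := HN k N with hH
  set u : ℝ := (1 - τ) + 1 / (4 * L) with hu
  have hu0 : 0 < u := by
    have : 0 < 1 / (4 * L) := by positivity
    have : 0 ≤ 1 - τ := by linarith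
    linarith
  set g : ℝ := ((goodT k N τ).card : ℝ) with hg
  have hg0 : 0 ≤ g := Nat.cast_nonneg _
  set X : ℝ := (H:ℝ) ^ (k + 1) with hX
  have hX0 : 0 ≤ X := by positivity
  have hS : c * X * u ≤ ∑ T ∈ goodT k N τ, Uni.CT T := by
    have : X / (k + 1).factorial * u / B ≤ ∑ T ∈ goodT k N τ, Uni.CT T := by
      rw [div_le_iff₀ hB]
      linarith
    refine le_trans (le_of_eq ?_) this
    rw [hc]; field_simp
  have hS0 : 0 ≤ ∑ T ∈ goodT k N τ, Uni.CT T := sum_nonneg fun T _ => Uni.CT_nonneg T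
  have hpow : (∑ T ∈ goodT k N τ, Uni.CT T) ^ (n + 1) ≤ g ^ n * ∑ T ∈ goodT k N τ, Uni.CT T ^ (n + 1) := by
    exact pow_sum_le_card_mul_sum_pow (fun T _ => Uni.CT_nonneg T) n
  have hmom : ∑ T ∈ goodT k N τ, Uni.CT T ^ (n + 1) ≤ C * X := by
    refine le_trans ?_ (hm H)
    apply sum_le_sum_of_subset_of_nonneg
    · unfold goodT
      exact filter_subset _ _
    · intro T _ _
      exact pow_nonneg (Uni.CT_nonneg T) _
  rcases hX0.eq_or_lt with h0 | hXpos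
  · rw [← h0, mul_zero]; exact hg0
  have hmain : c ^ (n + 1) / C * (u ^ (n + 1) * X ^ n) ≤ g ^ n := by
    have i1 : (c * X * u) ^ (n + 1) ≤ g ^ n * (C * X) :=
      (pow_le_pow_left₀ (by positivity) hS _).trans (hpow.trans (mul_le_mul_of_nonneg_left hmom (by positivity)))
    have i2 : (c * X * u) ^ (n + 1) = (c ^ (n + 1) * (u ^ (n + 1) * X ^ n)) * X := by ring
    rw [i2] at i1
    have i3 : g ^ n * (C * X) = (g ^ n * C) * X := by ring
    rw [i3] at i1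
    have i4 := le_of_mul_le_mul_right i1 hXpos
    rw [div_mul_eq_mul_div, div_le_iff₀ hC]
    exact i4
  have hroot : (c ^ (n + 1) / C * (u ^ (n + 1) * X ^ n)) ^ (1 / (n : ℝ)) ≤ g := by
    calc (c ^ (n + 1) / C * (u ^ (n + 1) * X ^ n)) ^ (1 / (n : ℝ)) ≤ (g ^ n) ^ (1 / (n : ℝ)) :=
          Real.rpow_le_rpow (by positivity) hmain (by positivity)
      _ = g := by
          rw [← Real.rpow_natCast, ← Real.rpow_mul hg0, mul_one_div_cancel hn0.ne', Real.rpow_one]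
  refine le_trans (le_of_eq ?_) hroot
  rw [Real.mul_rpow (by positivity) (by positivity), Real.mul_rpow (by positivity) (by positivity), ← hκ]
  have j1 : (u ^ (n + 1)) ^ (1 / (n : ℝ)) = u ^ (1 + 1 / (n : ℝ)) := by
    rw [← Real.rpow_natCast, ← Real.rpow_mul hu0.le]
    congr 1
    push_cast
    field_simp
  have j2 : (X ^ n) ^ (1 / (n : ℝ)) = X := by
    rw [← Real.rpow_natCast, ← Real.rpow_mul hX0, mul_one_div_cancel hn0.ne', Real.rpow_one]
  rw [j1, j2]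
  ring

end Pool.Agent.TH891.SG
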