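import Mathlib
import Pool.Agent.TH891.SG.Cnt2

set_option autoImplicit false

/-! From the patterns to the sets of shifts, helper891. -/

namespace Pool.Agent.TH891.SG

open Finset Filter Topology Pool.Agent.H387R2

lemma nuT_add (S : Finset ℕ) (m : ℕ) {p : ℕ} (_hp : 0 < p) :
    Uni.nuT (S.image (· + m)) p = Uni.nuT S p := by
  unfold Uni.nuT
  rw [image_image]
  have e : S.image ((· % p) ∘ (· + m)) = (S.image (· % p)).image (fun r => (r + m) % p) := by
    rw [image_image]
    apply image_congr
    intro s _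
    simp only [Function.comp]
    rw [Nat.mod_add_mod]
  rw [e]
  apply card_image_of_injOn
  intro a ha b hb hab
  obtain ⟨s, _, rfl⟩ := mem_image.1 (mem_coe.1 ha)
  obtain ⟨t, _, rfl⟩ := mem_image.1 (mem_coe.1 hb)
  simp only at hab ⊢
  have h1 : (s % p) ≡ (t % p) [MOD p] := Nat.ModEq.add_right_cancel' m hab
  unfold Nat.ModEq at h1
  rwa [Nat.mod_mod, Nat.mod_mod] at h1

lemma card_add (S : Finset ℕ) (m : ℕ) : (S.image (· + m)).card = S.card :=
  card_image_of_injective _ (fun _ _ h => Nat.add_right_cancel h)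

lemma CT_add (S : Finset ℕ) (m : ℕ) : Uni.CT (S.image (· + m)) = Uni.CT S := by
  unfold Uni.CT
  apply tprod_congr
  intro p
  unfold Uni.locT
  rw [nuT_add S m p.2.pos, card_add]

lemma Adm_add (S : Finset ℕ) (m : ℕ) : Uni.Adm (S.image (· + m)) ↔ Uni.Adm S := by
  unfold Uni.Adm
  constructor
  · intro h p hp
    have := h p hp
    rwa [nuT_add S m hp.pos] at this
  · intro h p hp
    rw [nuT_add S m hp.pos]
    exact h p hp

lemma CT_zero_of {S : Finset ℕ} {q : ℕ} (hq : q.Prime) (h : Uni.nuT S q = q) : Uni.CT S = 0 := by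
  unfold Uni.CT
  apply tprod_of_exists_eq_zero
  refine ⟨⟨q, hq⟩, ?_⟩
  unfold Uni.locT
  have : (q:ℝ) ≠ 0 := by exact_mod_cast hq.pos.ne'
  simp [h, this]

lemma nuT_leP (S : Finset ℕ) {p : ℕ} (hp : 0 < p) : Uni.nuT S p ≤ p := by
  unfold Uni.nuT
  have : S.image (· % p) ⊆ range p := by
    intro r hr
    obtain ⟨s, _, rfl⟩ := mem_image.1 hr
    exact mem_range.2 (Nat.mod_lt _ hp)
  have := card_le_card this
  rwa [card_range] at this

lemma CT_pos_iff (S : Finset ℕ) : 0 < Uni.CT S ↔ Uni.Adm S := by
  constructor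
  · intro h p hp
    refine lt_of_le_of_ne (nuT_leP S hp.pos) fun e => ?_
    rw [CT_zero_of hp e] at h
    exact lt_irrefl _ h
  · intro h
    rw [← Uni.CT_en]
    apply Pool.Agent.H386R2.HL.singularSeries_pos (Uni.en_inj S)
    intro p hp
    rw [Uni.nu_en]
    exact h p hp

lemma CT_01 {S : Finset ℕ} (h0 : 0 ∈ S) (h1 : 1 ∈ S) : Uni.CT S = 0 := by
  apply CT_zero_of Nat.prime_two
  apply le_antisymm (nuT_leP S (by norm_num))
  unfold Uni.nuT
  have : range 2 ⊆ S.image (· % 2) := by
    intro r hr
    rw [mem_range] at hr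
    rw [mem_image]
    interval_cases r
    · exact ⟨0, h0, rfl⟩
    · exact ⟨1, h1, rfl⟩
  have := card_le_card this
  rwa [card_range] at this

/-- the number of `m ≤ N` with all `m + s` prime -/
def pc (S : Finset ℕ) (N : ℕ) : ℕ := ((Icc 1 N).filter (fun m => ∀ s ∈ S, (m + s).Prime)).card

lemma sInf_add {S : Finset ℕ} (h0 : 0 ∈ S) (m : ℕ) : sInf ((S.image (· + m) : Finset ℕ) : Set ℕ) = m := by
  apply le_antisymm
  · apply Nat.sInf_le
    rw [mem_coe, mem_image]
    exact ⟨0, h0, by simp⟩
  · have hne : ((S.image (· + m) : Finset ℕ) : Set ℕ).Nonempty := ⟨m, by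
      rw [mem_coe, mem_image]
      exact ⟨0, h0, by simp⟩⟩
    have := Nat.sInf_mem hne
    rw [mem_coe, mem_image] at this
    obtain ⟨s, _, hs⟩ := this
    rw [← hs]
    omega

lemma piT_add {S : Finset ℕ} (h0 : 0 ∈ S) (m N : ℕ) (hA : Uni.Adm S) :
    Uni.piT (S.image (· + m)) N = pc S N := by
  classical
  unfold Uni.piT
  rw [if_pos ((Adm_add S m).2 hA), sInf_add h0 m]
  unfold pc
  congr 1
  apply filter_congr
  intro p _
  constructor
  · intro h s hs
    have := h (s + m) (mem_image.2 ⟨s, hs, rfl⟩)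
    rwa [Nat.add_sub_cancel] at this
  · intro h t ht
    obtain ⟨s, hs, rfl⟩ := mem_image.1 ht
    rw [Nat.add_sub_cancel]
    exact h s hs

open Classical in
/-- the sets of shifts whose count is at least `τ + 1/(16 log N)` times the prediction -/
noncomputable def goodD (k N : ℕ) (τ : ℝ) : Finset (Finset ℕ) :=
  ((Icc 2 (HN k N)).powersetCard k).filter (fun D => 0 < Uni.CT (insert 0 D) ∧
    (τ + 1 / (16 * Real.log N)) * ((N / Real.log N ^ (k + 1)) * Uni.CT (insert 0 D)) ≤ pc (insert 0 D) N)

lemma goodT_le (k N : ℕ) (τ : ℝ) : (goodT k N τ).card ≤ HN k N * (goodD k N τ).card := by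
  classical
  set H := HN k N with hH
  -- the structure of a pattern
  have hstr : ∀ T ∈ goodT k N τ, sInf (T : Set ℕ) < H ∧
      ((T.image (fun t => t - sInf (T : Set ℕ))).erase 0) ∈ goodD k N τ ∧
      (insert 0 ((T.image (fun t => t - sInf (T : Set ℕ))).erase 0)).image (· + sInf (T : Set ℕ)) = T := by
    intro T hT
    unfold goodT at hT
    rw [mem_filter, mem_powersetCard] at hT
    obtain ⟨⟨hsub, hcard⟩, hpos, hge⟩ := hT
    set m := sInf (T : Set ℕ) with hm
    have hne : T.Nonempty := card_pos.1 (by omega)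
    have hmT : m ∈ T := by
      have : sInf (T : Set ℕ) ∈ (T : Set ℕ) := Nat.sInf_mem (by simpa using hne)
      exact mem_coe.1 this
    have hmin : ∀ t ∈ T, m ≤ t := fun t ht => Nat.sInf_le (mem_coe.2 ht)
    set S := T.image (fun t => t - m) with hS
    have h0S : 0 ∈ S := by
      rw [hS, mem_image]; exact ⟨m, hmT, by omega⟩
    have hins : insert 0 (S.erase 0) = S := insert_erase h0S
    have hback : S.image (· + m) = T := by
      ext t
      rw [hS, image_image, mem_image]
      constructor
      · rintro ⟨s, hs, rfl⟩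
        simp only [Function.comp]
        have := hmin s hs
        have e : s - m + m = s := by omega
        rw [e]; exact hs
      · intro ht
        refine ⟨t, ht, ?_⟩
        simp only [Function.comp]
        have := hmin t ht
        omega
    have hSc : S.card = k + 1 := by
      rw [← card_add S m, hback]; exact hcard
    have hCT : Uni.CT S = Uni.CT T := by rw [← CT_add S m, hback]
    have hAS : Uni.Adm S := by
      rw [← CT_pos_iff, hCT]; exact hpos
    have hpi : Uni.piT T N = pc S N := by
      rw [← piT_add h0S m N hAS, hback]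
    refine ⟨mem_range.1 (hsub hmT), ?_, ?_⟩
    · unfold goodD
      rw [mem_filter, mem_powersetCard, hins]
      refine ⟨⟨?_, ?_⟩, ?_, ?_⟩
      · intro d hd
        rw [mem_erase] at hd
        rw [mem_Icc]
        have hd1 : d ≠ 1 := by
          rintro rfl
          have := CT_01 h0S hd.2
          rw [this] at hCT
          linarith
        obtain ⟨t, ht, rfl⟩ := mem_image.1 hd.2
        have h1 := mem_range.1 (hsub ht)
        have h2 := hmin t ht
        refine ⟨by omega, by omega⟩
      · rw [card_erase_of_mem h0S, hSc]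
        omega
      · rw [hCT]; exact hpos
      · rw [hCT, ← hpi]; exact hge
    · rw [hins]; exact hback
  have : (goodT k N τ).card ≤ ((range H) ×ˢ (goodD k N τ)).card := by
    apply card_le_card_of_injOn (fun T : Finset ℕ => (sInf (T : Set ℕ), (T.image (fun t => t - sInf (T : Set ℕ))).erase 0))
    · intro T hT
      have := hstr T (mem_coe.1 hT)
      rw [mem_coe, mem_product, mem_range]
      exact ⟨this.1, this.2.1⟩
    · intro T hT T' hT' h
      have h1 := (hstr T (mem_coe.1 hT)).2.2
      have h2 := (hstr T' (mem_coe.1 hT')).2.2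
      simp only [Prod.mk.injEq] at h
      rw [← h1, ← h2, h.1]
      rw [h.1] at h
      rw [h.2]
  rwa [card_product, card_range] at this

end Pool.Agent.TH891.SG
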