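import Mathlib
import Pool.Agent.TH891.SG.Cnt3

set_option autoImplicit false

/-! Many sets of shifts with at least the predicted count, helper891. -/

namespace Pool.Agent.TH891.SG

open Finset Filter Topology Pool.Agent.H387R2

lemma nuT_zmod (S : Finset ℕ) {p : ℕ} (hp : 0 < p) :
    (S.image (fun d : ℕ => (d : ZMod p))).card = Uni.nuT S p := by
  have : NeZero p := ⟨hp.ne'⟩
  unfold Uni.nuT
  have e : S.image (· % p) = (S.image (fun d : ℕ => (d : ZMod p))).image ZMod.val := by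
    rw [image_image]
    apply image_congr
    intro s _
    simp only [Function.comp]
    rw [ZMod.val_natCast]
  rw [e, card_image_of_injective _ (ZMod.val_injective p)]

/-- lower bound for the number of sets of shifts, natural `N` -/
theorem goodD_card (k : ℕ) (hk : 1 ≤ k) (δ : ℝ) (hδ : 0 < δ) : ∃ κ : ℝ, 0 < κ ∧ ∀ᶠ N : ℕ in atTop,
    ∀ τ : ℝ, 0 ≤ τ → τ ≤ 1 →
    κ * ((1 - τ) + 1 / Real.log N) ^ (1 + δ) * Real.log N ^ (k * (k + 1)) ≤ ((goodD k N τ).card : ℝ) := by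
  classical
  obtain ⟨n, hn⟩ := exists_nat_ge (1 / δ)
  have hn1 : 1 ≤ n + 1 := by omega
  have hnδ : 1 / ((n + 1 : ℕ) : ℝ) ≤ δ := by
    rw [div_le_iff₀ (by positivity)]
    rw [div_le_iff₀ hδ] at hn
    push_cast
    nlinarith
  obtain ⟨κ, hκ, h⟩ := good_card k hk (n + 1) hn1
  have tN : Tendsto (fun N : ℕ => (N : ℝ)) atTop atTop := tendsto_natCast_atTop_atTop
  have tL : Tendsto (fun N : ℕ => Real.log (N : ℝ)) atTop atTop := Real.tendsto_log_atTop.comp tN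
  refine ⟨κ * (1 / 4) ^ (1 + δ) * (1 / 2) ^ k, by positivity, ?_⟩
  filter_upwards [h, tL.eventually_ge_atTop 2, eventually_ge_atTop 1] with N h1 hL2 hN1
  intro τ hτ0 hτ1
  have h2 := h1 τ hτ0 hτ1
  set L := Real.log (N:ℝ) with hL
  have hL0 : 0 < L := by linarith
  set H := HN k N with hH
  have hH2 : L ^ (k + 1) - 1 ≤ H := HN_ge k N
  have hLk : (2:ℝ) ≤ L ^ (k + 1) := by
    calc (2:ℝ) ≤ L := hL2
      _ = L ^ 1 := (pow_one L).symm
      _ ≤ L ^ (k + 1) := pow_le_pow_right₀ (by linarith) (by omega)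
  have hH3 : L ^ (k + 1) / 2 ≤ H := by linarith
  have hH0 : (0:ℝ) < H := by linarith
  set u : ℝ := (1 - τ) + 1 / (4 * L) with hu
  set v : ℝ := (1 - τ) + 1 / L with hv
  have hL1' : 1 / L ≤ 1 := by rw [div_le_one hL0]; linarith
  have hL1'' : 0 < 1 / L := by positivity
  have hv0 : 0 < v := by
    rw [hv]; linarith
  have hv2 : v ≤ 2 := by rw [hv]; linarith
  have hvu : 1 / 4 * v ≤ u := by
    rw [hu, hv]
    have e : (1:ℝ) / (4 * L) = 1 / 4 * (1 / L) := by field_simp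
    rw [e]
    linarith
  have hpow : (1 / 4) ^ (1 + δ) * v ^ (1 + δ) ≤ u ^ (1 + 1 / ((n + 1 : ℕ) : ℝ)) := by
    rw [← Real.mul_rpow (by norm_num) hv0.le]
    calc (1 / 4 * v) ^ (1 + δ) ≤ (1 / 4 * v) ^ (1 + 1 / ((n + 1 : ℕ) : ℝ)) :=
          Real.rpow_le_rpow_of_exponent_ge (by positivity) (by linarith) (by linarith)
      _ ≤ _ := Real.rpow_le_rpow (by positivity) hvu (by positivity)
  have hcard : ((goodT k N τ).card : ℝ) ≤ H * ((goodD k N τ).card : ℝ) := by exact_mod_cast goodT_le k N τ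
  have h3 : κ * u ^ (1 + 1 / ((n + 1 : ℕ) : ℝ)) * (H : ℝ) ^ k ≤ ((goodD k N τ).card : ℝ) := by
    have : (κ * u ^ (1 + 1 / ((n + 1 : ℕ) : ℝ)) * (H : ℝ) ^ k) * H ≤ ((goodD k N τ).card : ℝ) * H := by
      calc (κ * u ^ (1 + 1 / ((n + 1 : ℕ) : ℝ)) * (H : ℝ) ^ k) * H =
          κ * u ^ (1 + 1 / ((n + 1 : ℕ) : ℝ)) * (H : ℝ) ^ (k + 1) := by ring
        _ ≤ _ := h2
        _ ≤ _ := by linarith
    exact le_of_mul_le_mul_right this hH0
  refine le_trans ?_ h3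
  have h4 : (1 / 2) ^ k * L ^ (k * (k + 1)) ≤ (H:ℝ) ^ k := by
    calc (1 / 2) ^ k * L ^ (k * (k + 1)) = (1 / 2) ^ k * (L ^ (k + 1)) ^ k := by
          rw [← pow_mul, mul_comm k (k + 1)]
      _ = (1 / 2 * L ^ (k + 1)) ^ k := (mul_pow _ _ _).symm
      _ ≤ (H:ℝ) ^ k := pow_le_pow_left₀ (by positivity) (by linarith) _
  calc κ * (1 / 4) ^ (1 + δ) * (1 / 2) ^ k * v ^ (1 + δ) * L ^ (k * (k + 1))
      = κ * ((1 / 4) ^ (1 + δ) * v ^ (1 + δ)) * ((1 / 2) ^ k * L ^ (k * (k + 1))) := by ring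
    _ ≤ κ * u ^ (1 + 1 / ((n + 1 : ℕ) : ℝ)) * (H : ℝ) ^ k := by
        apply mul_le_mul _ h4 (by positivity) (by positivity)
        exact mul_le_mul_of_nonneg_left hpow hκ.le

end Pool.Agent.TH891.SG
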