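import Mathlib
import Pool.Agent.TH891.SG.Cnt4

set_option autoImplicit false

/-! Prime pairs: sharp mean, helper891. -/

namespace Pool.Agent.TH891.SG

open Finset Filter Topology Pool.Agent.H387R2

/-- from a lower bound for the weight to a lower bound for the cardinality -/
theorem card_of_weight (k n : ℕ) (hn : 1 ≤ n) {B : ℝ} (hB : 0 < B) : ∃ κ : ℝ, 0 < κ ∧ ∀ H : ℕ,
    ∀ G : Finset (Finset ℕ), G ⊆ (range H).powersetCard (k + 1) → ∀ u : ℝ, 0 < u →
      ((H : ℝ) ^ (k + 1) / (k + 1).factorial) * u ≤ B * ∑ T ∈ G, Uni.CT T →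
      κ * u ^ (1 + 1 / (n : ℝ)) * (H : ℝ) ^ (k + 1) ≤ (G.card : ℝ) := by
  classical
  obtain ⟨C, hC, hm⟩ := CT_mom k (n + 1)
  have hfac : (0:ℝ) < ((k + 1).factorial : ℝ) := by exact_mod_cast (k + 1).factorial_pos
  have hn0 : (0:ℝ) < n := by exact_mod_cast hn
  set c : ℝ := 1 / ((k + 1).factorial * B) with hc
  have hc0 : 0 < c := by positivity
  set κ : ℝ := (c ^ (n + 1) / C) ^ (1 / (n : ℝ)) with hκ
  have hκ0 : 0 < κ := by positivity
  refine ⟨κ, hκ0, fun H G hG u hu0 h2 => ?_⟩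
  set g : ℝ := (G.card : ℝ) with hg
  have hg0 : 0 ≤ g := Nat.cast_nonneg _
  set X : ℝ := (H:ℝ) ^ (k + 1) with hX
  have hX0 : 0 ≤ X := by positivity
  have hS : c * X * u ≤ ∑ T ∈ G, Uni.CT T := by
    have : X / (k + 1).factorial * u / B ≤ ∑ T ∈ G, Uni.CT T := by
      rw [div_le_iff₀ hB]
      linarith
    refine le_trans (le_of_eq ?_) this
    rw [hc]; field_simp
  have hpow : (∑ T ∈ G, Uni.CT T) ^ (n + 1) ≤ g ^ n * ∑ T ∈ G, Uni.CT T ^ (n + 1) :=
    pow_sum_le_card_mul_sum_pow (fun T _ => Uni.CT_nonneg T) n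
  have hmom : ∑ T ∈ G, Uni.CT T ^ (n + 1) ≤ C * X := by
    refine le_trans ?_ (hm H)
    apply sum_le_sum_of_subset_of_nonneg hG
    intro T _ _
    exact pow_nonneg (Uni.CT_nonneg T) _
  rcases hX0.eq_or_lt with h0 | hXpos
  · rw [← h0, mul_zero]; exact hg0
  have hmain : c ^ (n + 1) / C * (u ^ (n + 1) * X ^ n) ≤ g ^ n := by
    have i1 : (c * X * u) ^ (n + 1) ≤ g ^ n * (C * X) :=
      (pow_le_pow_left₀ (by positivity) hS _).trans (hpow.trans (mul_le_mul_of_nonneg_left hmom (by positivity)))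
    have i2 : (c * X * u) ^ (n + 1) = (c ^ (n + 1) * (u ^ (n + 1) * X ^ n)) * X := by ring
    rw [i2] at i1
    have i3 : g ^ n * (C * X) = (g ^ n * C) * X := by ring
    rw [i3] at i1
    have i4 := le_of_mul_le_mul_right i1 hXpos
    rw [div_mul_eq_mul_div, div_le_iff₀ hC]
    exact i4
  have hroot : (c ^ (n + 1) / C * (u ^ (n + 1) * X ^ n)) ^ (1 / (n : ℝ)) ≤ g := by
    calc (c ^ (n + 1) / C * (u ^ (n + 1) * X ^ n)) ^ (1 / (n : ℝ)) ≤ (g ^ n) ^ (1 / (n : ℝ)) :=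
          Real.rpow_le_rpow (by positivity) hmain (by positivity)
      _ = g := by
          rw [← Real.rpow_natCast, ← Real.rpow_mul hg0, mul_one_div_cancel hn0.ne', Real.rpow_one]
  refine le_trans (le_of_eq ?_) hroot
  rw [Real.mul_rpow (by positivity) (by positivity), Real.mul_rpow (by positivity) (by positivity), ← hκ]
  have j1 : (u ^ (n + 1)) ^ (1 / (n : ℝ)) = u ^ (1 + 1 / (n : ℝ)) := by
    rw [← Real.rpow_natCast, ← Real.rpow_mul hu0.le]
    congr 1
    push_cast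
    field_simp
  have j2 : (X ^ n) ^ (1 / (n : ℝ)) = X := by
    rw [← Real.rpow_natCast, ← Real.rpow_mul hX0, mul_one_div_cancel hn0.ne', Real.rpow_one]
  rw [j1, j2]
  ring

/-- **the mean of the counts of pairs**, sharp second order term -/
theorem many1 {η : ℝ} (hη : 0 < η) (hη1 : η ≤ 1) : ∀ᶠ N : ℕ in atTop,
    (N / Real.log N ^ 2) * ((HN 1 N : ℝ) ^ 2 / 2) * (1 + (1 - η) / Real.log N) ≤
      ∑ T ∈ (range (HN 1 N)).powersetCard 2, (Uni.piT T N : ℝ) := by
  have tN : Tendsto (fun N : ℕ => (N : ℝ)) atTop atTop := tendsto_natCast_atTop_atTop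
  have tL : Tendsto (fun N : ℕ => Real.log (N : ℝ)) atTop atTop := Real.tendsto_log_atTop.comp tN
  filter_upwards [pi_low (η := η / 8) (by linarith), tL.eventually_ge_atTop (max 20 (32 / η)),
    tN.eventually (Uni.log_pow_small ((4 : ℕ) : ℝ) (η := η / 16) (by linarith)), eventually_ge_atTop 1]
    with N h1 h2 h3 hN1
  set L := Real.log (N:ℝ) with hL
  have hL20 : 20 ≤ L := (le_max_left _ _).trans h2
  have hLη : 32 / η ≤ L := (le_max_right _ _).trans h2
  have hL0 : 0 < L := by linarith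
  have hN0 : (0:ℝ) < N := by exact_mod_cast hN1
  have hηL : 32 ≤ η * L := by
    rw [div_le_iff₀ hη] at hLη
    linarith
  rw [Real.rpow_natCast] at h3
  set H := HN 1 N with hH
  have hH1 : (H:ℝ) ≤ L ^ 2 := HN_le 1 N hN1
  have hH2 : L ^ 2 - 1 ≤ H := HN_ge 1 N
  have hH3 : L * (L - 1) ≤ H := by nlinarith
  have hH0 : (0:ℝ) < H := lt_of_lt_of_le (by
    have : 0 < L - 1 := by linarith
    positivity) hH3
  have hsm : (H:ℝ) + 2 ≤ N * ((η / 8) / L ^ 2) := by
    rw [← mul_div_assoc, le_div_iff₀ (by positivity)]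
    have a1 : ((H:ℝ) + 2) ≤ 2 * L ^ 2 := by nlinarith
    calc ((H:ℝ) + 2) * L ^ 2 ≤ (2 * L ^ 2) * L ^ 2 :=
          mul_le_mul_of_nonneg_right a1 (by positivity)
      _ = 2 * L ^ 4 := by ring
      _ ≤ N * (η / 8) := by linarith
  have hsm1 : (η / 8) / L ^ 2 ≤ 1 := by
    rw [div_le_one (by positivity)]; nlinarith
  have hHN : H ≤ N := by
    have : (H:ℝ) ≤ N := by
      have a2 : (N:ℝ) * ((η / 8) / L ^ 2) ≤ N * 1 := mul_le_mul_of_nonneg_left hsm1 hN0.le
      linarith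
    exact_mod_cast this
  set y : ℝ := (H / L) * (1 + (1 - η / 4) / L) with hy
  have hb0 : 0 ≤ (1 - η / 4) / L := div_nonneg (by linarith) hL0.le
  have hy0 : 0 < y := by
    rw [hy]
    apply mul_pos (by positivity) (by linarith)
  have hyH : H / L ≤ y := by
    rw [hy]
    have a0 : (0:ℝ) ≤ H / L := by positivity
    nlinarith
  have hwin := window 1 N H hHN (y := y) hy0.le (by
    rw [hy]
    have a1 : N / L * (1 + (1 - η / 4) / L) ≤ N / L * (1 + (1 - η / 8) / L) - N * ((η / 8) / L ^ 2) := by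
      have : N / L * (1 + (1 - η / 8) / L) - N * ((η / 8) / L ^ 2) = N / L * (1 + (1 - η / 4) / L) := by
        field_simp
        ring
      linarith
    calc (H / L) * (1 + (1 - η / 4) / L) * N = H * (N / L * (1 + (1 - η / 4) / L)) := by ring
      _ ≤ _ := by
          apply mul_le_mul_of_nonneg_left _ hH0.le
          push_cast
          linarith)
  -- the loss
  have hloss : 1 / y ≤ (1 + η / 8) / L := by
    calc 1 / y ≤ 1 / (H / L) := one_div_le_one_div_of_le (by positivity) hyH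
      _ = L / H := by rw [one_div_div]
      _ ≤ (1 + η / 8) / L := by
          rw [div_le_div_iff₀ hH0 hL0]
          have b3 : L ≤ (1 + η / 8) * (L - 1) := by nlinarith
          calc L * L ≤ ((1 + η / 8) * (L - 1)) * L := mul_le_mul_of_nonneg_right b3 hL0.le
            _ = (1 + η / 8) * (L * (L - 1)) := by ring
            _ ≤ (1 + η / 8) * H := mul_le_mul_of_nonneg_left hH3 (by linarith)
  have hph := ph_ge 1 (u := 1 / y) (by positivity)
  have hGG : (H / L) ^ 2 * (1 + (1 - 3 * η / 4) / L) ≤ Uni.GG 1 y := by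
    rw [Uni.GG_eq 1 hy0]
    have c1 : (1 + (2 - η / 2) / L) ≤ (1 + (1 - η / 4) / L) ^ 2 := by
      have : (1 + (1 - η / 4) / L) ^ 2 = 1 + (2 - η / 2) / L + ((1 - η / 4) / L) ^ 2 := by ring
      rw [this]
      have := sq_nonneg ((1 - η / 4) / L)
      linarith
    have c4 : 1 - (1 + η / 8) / L ≤ Uni.ph 1 (1 / y) := by
      norm_num at hph
      rw [one_div] at hloss ⊢
      linarith
    have c5 : (0:ℝ) ≤ 1 - (1 + η / 8) / L := by
      rw [sub_nonneg, div_le_one hL0]; linarith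
    have c6 : (1 + (1 - 3 * η / 4) / L) ≤ (1 + (2 - η / 2) / L) * (1 - (1 + η / 8) / L) := by
      have e : (1 + (2 - η / 2) / L) * (1 - (1 + η / 8) / L) - (1 + (1 - 3 * η / 4) / L) =
          ((η / 8) * L - (2 - η / 2) * (1 + η / 8)) / L ^ 2 := by
        field_simp
        ring
      have : 0 ≤ ((η / 8) * L - (2 - η / 2) * (1 + η / 8)) / L ^ 2 := div_nonneg (by nlinarith) (by positivity)
      linarith
    have c7 : 0 ≤ 1 + (1 - 3 * η / 4) / L := by
      have : 0 ≤ (1 - 3 * η / 4) / L := div_nonneg (by linarith) hL0.le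
      linarith
    rw [hy, mul_pow, mul_assoc]
    apply mul_le_mul_of_nonneg_left _ (by positivity)
    calc (1 + (1 - 3 * η / 4) / L) ≤ (1 + (2 - η / 2) / L) * (1 - (1 + η / 8) / L) := c6
      _ ≤ (1 + (1 - η / 4) / L) ^ 2 * Uni.ph 1 (1 / y) := by
          apply mul_le_mul c1 c4 c5 (by positivity)
      _ = _ := by rw [hy]
  have hN2 : (0:ℝ) ≤ (N:ℝ) - H - (1 + 1) := by
    have a2 : (N:ℝ) * ((η / 8) / L ^ 2) ≤ N * 1 := mul_le_mul_of_nonneg_left hsm1 hN0.le
    linarith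
  have hfin : (N:ℝ) * (H / L) ^ 2 * (1 + (1 - η) / L) ≤
      2 * ∑ T ∈ (range H).powersetCard 2, (Uni.piT T N : ℝ) := by
    have hfac : ((1 + 1).factorial : ℝ) = 2 := by norm_num
    push_cast at hwin
    rw [hfac] at hwin
    refine le_trans ?_ hwin
    refine le_trans ?_ (mul_le_mul_of_nonneg_left hGG hN2)
    have d1 : (N:ℝ) * (1 - (η / 8) / L ^ 2) ≤ (N:ℝ) - H - (1 + 1) := by
      have : (N:ℝ) * (1 - (η / 8) / L ^ 2) = N - N * ((η / 8) / L ^ 2) := by ring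
      linarith
    have d2 : (1 + (1 - η) / L) ≤ (1 - (η / 8) / L ^ 2) * (1 + (1 - 3 * η / 4) / L) := by
      have e : (1 - (η / 8) / L ^ 2) * (1 + (1 - 3 * η / 4) / L) - (1 + (1 - η) / L) =
          η * (2 * L ^ 2 - L - (1 - 3 * η / 4)) / (8 * L ^ 3) := by
        field_simp
        ring
      have : 0 ≤ η * (2 * L ^ 2 - L - (1 - 3 * η / 4)) / (8 * L ^ 3) :=
        div_nonneg (mul_nonneg hη.le (by nlinarith)) (by positivity)
      linarith
    have d3 : 0 ≤ 1 + (1 - 3 * η / 4) / L := by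
      have : 0 ≤ (1 - 3 * η / 4) / L := div_nonneg (by linarith) hL0.le
      linarith
    calc (N:ℝ) * (H / L) ^ 2 * (1 + (1 - η) / L)
        ≤ (N:ℝ) * (H / L) ^ 2 * ((1 - (η / 8) / L ^ 2) * (1 + (1 - 3 * η / 4) / L)) :=
          mul_le_mul_of_nonneg_left d2 (by positivity)
      _ = ((N:ℝ) * (1 - (η / 8) / L ^ 2)) * ((H / L) ^ 2 * (1 + (1 - 3 * η / 4) / L)) := by ring
      _ ≤ _ := mul_le_mul_of_nonneg_right d1 (by positivity)
  have e : (N / L ^ 2) * ((H : ℝ) ^ 2 / 2) * (1 + (1 - η) / L) =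
      ((N:ℝ) * (H / L) ^ 2 * (1 + (1 - η) / L)) / 2 := by
    rw [div_pow]
    field_simp
  rw [e, div_le_iff₀ (by norm_num)]
  linarith

/-- the average of the singular series, any relative precision `η / log N` -/
theorem avg_up1 {η : ℝ} (hη : 0 < η) : ∀ᶠ N : ℕ in atTop,
    ∑ T ∈ (range (HN 1 N)).powersetCard 2, Uni.CT T ≤
      ((HN 1 N : ℝ) ^ 2 / 2) * (1 + η / Real.log N) := by
  obtain ⟨C, hC, h⟩ := CT_avg 1
  have tN : Tendsto (fun N : ℕ => (N : ℝ)) atTop atTop := tendsto_natCast_atTop_atTop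
  have tL : Tendsto (fun N : ℕ => Real.log (N : ℝ)) atTop atTop := Real.tendsto_log_atTop.comp tN
  filter_upwards [tL.eventually_ge_atTop (max 4 (2 * (2 * C / η) ^ 2)), eventually_ge_atTop 1] with N h1 hN1
  set L := Real.log (N:ℝ) with hL
  have hL4 : 4 ≤ L := (le_max_left _ _).trans h1
  have hLC : 2 * (2 * C / η) ^ 2 ≤ L := (le_max_right _ _).trans h1
  have hL0 : 0 < L := by linarith
  set H := HN 1 N with hH
  have hH2 : L ^ 2 - 1 ≤ H := HN_ge 1 N
  have hH3 : (L / 2) ^ 2 ≤ H := by nlinarith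
  have hH0 : (0:ℝ) < H := lt_of_lt_of_le (by positivity) hH3
  have hH1 : 1 ≤ H := by
    have : 0 < H := by exact_mod_cast hH0
    omega
  refine (h H hH1).trans ?_
  have key : C * (H:ℝ) ^ (1 / 4 : ℝ) ≤ (η / L) * H := by
    have e1 : (H:ℝ) = (H:ℝ) ^ (1 / 4 : ℝ) * (H:ℝ) ^ (3 / 4 : ℝ) := by
      rw [← Real.rpow_add hH0]
      norm_num
    have e2 : C * L / η ≤ (H:ℝ) ^ (3 / 4 : ℝ) := by
      have e3 : (L / 2) * (L / 2) ^ (1 / 2 : ℝ) ≤ (H:ℝ) ^ (3 / 4 : ℝ) := by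
        calc (L / 2) * (L / 2) ^ (1 / 2 : ℝ) = (L / 2) ^ (1 : ℝ) * (L / 2) ^ (1 / 2 : ℝ) := by rw [Real.rpow_one]
          _ = (L / 2) ^ (3 / 2 : ℝ) := by
              rw [← Real.rpow_add (by positivity)]; norm_num
          _ = ((L / 2) ^ 2) ^ (3 / 4 : ℝ) := by
              rw [← Real.rpow_natCast, ← Real.rpow_mul (by positivity)]; norm_num
          _ ≤ _ := Real.rpow_le_rpow (by positivity) hH3 (by norm_num)
      have e4 : 2 * C / η ≤ (L / 2) ^ (1 / 2 : ℝ) := by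
        rw [← Real.sqrt_eq_rpow]
        apply Real.le_sqrt_of_sq_le
        linarith
      calc C * L / η = (L / 2) * (2 * C / η) := by ring
        _ ≤ (L / 2) * (L / 2) ^ (1 / 2 : ℝ) := mul_le_mul_of_nonneg_left e4 (by positivity)
        _ ≤ _ := e3
    have e5 : C ≤ (η / L) * (H:ℝ) ^ (3 / 4 : ℝ) := by
      rw [div_le_iff₀ hη] at e2
      rw [div_mul_eq_mul_div, le_div_iff₀ hL0]
      linarith
    calc C * (H:ℝ) ^ (1 / 4 : ℝ) ≤ ((η / L) * (H:ℝ) ^ (3 / 4 : ℝ)) * (H:ℝ) ^ (1 / 4 : ℝ) :=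
          mul_le_mul_of_nonneg_right e5 (by positivity)
      _ = (η / L) * ((H:ℝ) ^ (1 / 4 : ℝ) * (H:ℝ) ^ (3 / 4 : ℝ)) := by ring
      _ = (η / L) * H := by rw [← e1]
  have hfac : ((1 + 1).factorial : ℝ) = 2 := by norm_num
  rw [hfac, pow_one]
  calc (H:ℝ) * ((H:ℝ) + C * (H:ℝ) ^ (1 / 4 : ℝ)) / 2
      ≤ (H:ℝ) * ((H:ℝ) + (η / L) * H) / 2 := by
        apply div_le_div_of_nonneg_right _ (by norm_num)
        apply mul_le_mul_of_nonneg_left _ hH0.le
        linarith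
    _ = _ := by ring

end Pool.Agent.TH891.SG
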