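import Mathlib
import Pool.Agent.TH891.SG.Pr1

set_option autoImplicit false

/-! General window length and threshold, helper891. -/

namespace Pool.Agent.TH891.SG

open Finset Filter Topology Pool.Agent.H387R2

open Classical in
/-- the patterns whose count is at least `s` times the singular series -/
noncomputable def gT (k N H : ℕ) (s : ℝ) : Finset (Finset ℕ) :=
  ((range H).powersetCard (k + 1)).filter (fun T => 0 < Uni.CT T ∧ s * Uni.CT T ≤ Uni.piT T N)

open Classical in
/-- the sets of shifts whose count is at least `s` times the singular series -/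
noncomputable def gD (k N H : ℕ) (s : ℝ) : Finset (Finset ℕ) :=
  ((Icc 2 H).powersetCard k).filter (fun D => 0 < Uni.CT (insert 0 D) ∧
    s * Uni.CT (insert 0 D) ≤ pc (insert 0 D) N)

lemma gT_le (k N H : ℕ) (s : ℝ) : (gT k N H s).card ≤ H * (gD k N H s).card := by
  classical
  have hstr : ∀ T ∈ gT k N H s, sInf (T : Set ℕ) < H ∧
      ((T.image (fun t => t - sInf (T : Set ℕ))).erase 0) ∈ gD k N H s ∧
      (insert 0 ((T.image (fun t => t - sInf (T : Set ℕ))).erase 0)).image (· + sInf (T : Set ℕ)) = T := by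
    intro T hT
    unfold gT at hT
    rw [mem_filter, mem_powersetCard] at hT
    obtain ⟨⟨hsub, hcard⟩, hpos, hge⟩ := hT
    set m := sInf (T : Set ℕ) with hm
    have hne : T.Nonempty := card_pos.1 (by omega)
    have hmT : m ∈ T := by
      have : sInf (T : Set ℕ) ∈ (T : Set ℕ) := Nat.sInf_mem (by simpa using hne)
      exact mem_coe.1 this
    have hmin : ∀ t ∈ T, m ≤ t := fun t ht => Nat.sInf_le (mem_coe.2 ht)
    set S := T.image (fun t => t - m) with hS
    have h0S : 0 ∈ S := by
      rw [hS, mem_image]; exact ⟨m, hmT, by omega⟩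
    have hins : insert 0 (S.erase 0) = S := insert_erase h0S
    have hback : S.image (· + m) = T := by
      ext t
      rw [hS, image_image, mem_image]
      constructor
      · rintro ⟨s, hs, rfl⟩
        simp only [Function.comp]
        have := hmin s hs
        have e : s - m + m = s := by omega
        rw [e]; exact hs
      · intro ht
        refine ⟨t, ht, ?_⟩
        simp only [Function.comp]
        have := hmin t ht
        omega
    have hSc : S.card = k + 1 := by
      rw [← card_add S m, hback]; exact hcard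
    have hCT : Uni.CT S = Uni.CT T := by rw [← CT_add S m, hback]
    have hAS : Uni.Adm S := by
      rw [← CT_pos_iff, hCT]; exact hpos
    have hpi : Uni.piT T N = pc S N := by
      rw [← piT_add h0S m N hAS, hback]
    refine ⟨mem_range.1 (hsub hmT), ?_, ?_⟩
    · unfold gD
      rw [mem_filter, mem_powersetCard, hins]
      refine ⟨⟨?_, ?_⟩, ?_, ?_⟩
      · intro d hd
        rw [mem_erase] at hd
        rw [mem_Icc]
        have hd1 : d ≠ 1 := by
          rintro rfl
          have := CT_01 h0S hd.2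
          rw [this] at hCT
          linarith
        obtain ⟨t, ht, rfl⟩ := mem_image.1 hd.2
        have h1 := mem_range.1 (hsub ht)
        have h2 := hmin t ht
        refine ⟨by omega, by omega⟩
      · rw [card_erase_of_mem h0S, hSc]
        omega
      · rw [hCT]; exact hpos
      · rw [hCT, ← hpi]; exact hge
    · rw [hins]; exact hback
  have : (gT k N H s).card ≤ ((range H) ×ˢ (gD k N H s)).card := by
    apply card_le_card_of_injOn (fun T : Finset ℕ => (sInf (T : Set ℕ), (T.image (fun t => t - sInf (T : Set ℕ))).erase 0))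
    · intro T hT
      have := hstr T (mem_coe.1 hT)
      rw [mem_coe, mem_product, mem_range]
      exact ⟨this.1, this.2.1⟩
    · intro T hT T' hT' h
      have h1 := (hstr T (mem_coe.1 hT)).2.2
      have h2 := (hstr T' (mem_coe.1 hT')).2.2
      simp only [Prod.mk.injEq] at h
      rw [← h1, ← h2, h.1]
      rw [h.1] at h
      rw [h.2]
  rwa [card_product, card_range] at this

/-- the weight of the good patterns, abstractly -/
theorem weight_gen (k N H : ℕ) {B V P a b σ : ℝ} (hV : 0 < V) (hσ : 0 ≤ σ)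
    (hmany : V * P * a ≤ ∑ T ∈ (range H).powersetCard (k + 1), (Uni.piT T N : ℝ))
    (havg : ∑ T ∈ (range H).powersetCard (k + 1), Uni.CT T ≤ P * b)
    (hup : ∀ T ∈ (range H).powersetCard (k + 1), (Uni.piT T N : ℝ) ≤ B * (V * Uni.CT T)) :
    P * (a - σ * b) ≤ B * ∑ T ∈ gT k N H (σ * V), Uni.CT T := by
  classical
  set A := (range H).powersetCard (k + 1) with hA
  have hsplit : ∑ T ∈ A, (Uni.piT T N : ℝ) ≤ ∑ T ∈ A, σ * V * Uni.CT T +
      ∑ T ∈ gT k N H (σ * V), B * (V * Uni.CT T) := by
    unfold gT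
    rw [← hA, sum_filter, ← sum_add_distrib]
    apply sum_le_sum
    intro T hTA
    have hCT := Uni.CT_nonneg T
    have hup' := hup T hTA
    split_ifs with hg
    · have : 0 ≤ σ * V * Uni.CT T := by positivity
      linarith
    · rw [add_zero]
      rw [not_and_or] at hg
      rcases hg with hg | hg
      · have : Uni.CT T = 0 := le_antisymm (not_lt.1 hg) hCT
        rw [this] at hup' ⊢
        simpa using hup'
      · exact (not_le.1 hg).le
  have e1 : ∑ T ∈ A, σ * V * Uni.CT T = σ * V * ∑ T ∈ A, Uni.CT T := by rw [mul_sum]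
  have e2 : ∑ T ∈ gT k N H (σ * V), B * (V * Uni.CT T) = V * (B * ∑ T ∈ gT k N H (σ * V), Uni.CT T) := by
    rw [mul_sum, mul_sum]; exact sum_congr rfl fun T _ => by ring
  rw [e1, e2] at hsplit
  have h5 : σ * V * ∑ T ∈ A, Uni.CT T ≤ σ * V * (P * b) :=
    mul_le_mul_of_nonneg_left havg (by positivity)
  have h6 : V * (P * (a - σ * b)) ≤ V * (B * ∑ T ∈ gT k N H (σ * V), Uni.CT T) := by
    calc V * (P * (a - σ * b)) = V * P * a - σ * V * (P * b) := by ring
      _ ≤ _ := by linarith
  exact le_of_mul_le_mul_left h6 hV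

lemma gT_sub (k N H : ℕ) (s : ℝ) : gT k N H s ⊆ (range H).powersetCard (k + 1) := by
  unfold gT
  exact filter_subset _ _

/-- the twin prime constant -/
noncomputable def C2 : ℝ := ∏' p : {p : ℕ // p.Prime ∧ 2 < p}, (1 - 1 / (((p.1 : ℕ) : ℝ) - 1) ^ 2)

/-- the singular series of a pair -/
noncomputable def SP (d : ℕ) : ℝ :=
  2 * C2 * ∏ p ∈ d.primeFactors.filter (fun p : ℕ => 2 < p), (((p : ℝ) - 1) / ((p : ℝ) - 2))

lemma nuT_pair {d p : ℕ} (_hp : p.Prime) : Uni.nuT {0, d} p = if p ∣ d then 1 else 2 := by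
  unfold Uni.nuT
  rw [image_insert, image_singleton, Nat.zero_mod]
  split_ifs with h
  · rw [Nat.mod_eq_zero_of_dvd h]; simp
  · have : 0 ≠ d % p := fun h' => h (Nat.dvd_of_mod_eq_zero h'.symm)
    rw [card_pair this]

lemma CT_pair {d : ℕ} (hd : 2 ≤ d) (he : Even d) : Uni.CT {0, d} = SP d := by
  classical
  set Pr : Set ℕ := {p | p.Prime} with hPr
  set Pr2 : Set ℕ := {p | p.Prime ∧ 2 < p} with hPr2
  -- the finite factor
  set h : ℕ → ℝ := fun p => if p = 2 then 2 else if p.Prime ∧ 2 < p ∧ p ∣ d then ((p : ℝ) - 1) / ((p : ℝ) - 2) else 1 with hh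
  set g : ℕ → ℝ := fun p => if p.Prime ∧ 2 < p then (1 - 1 / ((p : ℝ) - 1) ^ 2) else 1 with hg
  have hcard : ({0, d} : Finset ℕ).card = 2 := card_pair (by omega)
  have hloc : ∀ p : ℕ, p.Prime → Uni.locT {0, d} p = g p * h p := by
    intro p hp
    unfold Uni.locT
    rw [hcard, nuT_pair hp]
    by_cases h2 : p = 2
    · subst h2
      have : 2 ∣ d := he.two_dvd
      simp only [hg, hh, this, if_true, lt_irrefl, and_false, if_false, one_mul]
      norm_num
    · have h3 : 2 < p := lt_of_le_of_ne hp.two_le (Ne.symm h2)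
      have hp3 : (3:ℝ) ≤ p := by exact_mod_cast h3
      have a0 : (p:ℝ) ≠ 0 := by linarith
      have a1 : (p:ℝ) - 1 ≠ 0 := by linarith
      have a2 : (p:ℝ) - 2 ≠ 0 := by linarith
      have a3 : (1 - 1 / (p:ℝ)) = ((p:ℝ) - 1) / p := by field_simp
      by_cases hdv : p ∣ d
      · simp only [hg, hh, hp, h3, h2, hdv, and_self, if_true, if_false]
        rw [a3]
        push_cast
        rw [a3]
        field_simp
        ring
      · simp only [hg, hh, hp, h3, h2, hdv, and_false, and_self, if_true, if_false]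
        rw [a3]
        push_cast
        field_simp
        ring
  have hg1 : ∀ p : ℕ, ¬ (p.Prime ∧ 2 < p) → g p = 1 := by
    intro p hp
    simp only [hg, hp, if_false]
  have hC2 : C2 = ∏' p : ℕ, g p := by
    have h1 : ∏' p : Pr2, g p = ∏' p : ℕ, g p := by
      apply tprod_subtype_eq_of_mulSupport_subset
      intro p hp
      by_contra hcon
      exact hp (hg1 p hcon)
    rw [← h1]
    unfold C2
    apply tprod_congr
    intro p
    have hp : (p : ℕ).Prime ∧ 2 < (p : ℕ) := p.2
    simp only [hg, hp, and_self, if_true]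
  have hF : HasProd (Pr.mulIndicator (fun p : ℕ => Uni.locT {0, d} p)) (Uni.CT {0, d}) := by
    rw [← hasProd_subtype_iff_mulIndicator]
    exact Uni.CT_hasProd {0, d}
  set s : Finset ℕ := insert 2 (d.primeFactors.filter (fun p : ℕ => 2 < p)) with hs
  have hnz : ∀ p : ℕ, h p ≠ 0 := by
    intro p
    simp only [hh]
    split_ifs with h1 h2
    · norm_num
    · have hp3 : (3:ℝ) ≤ p := by exact_mod_cast h2.2.1
      apply div_ne_zero <;> linarith
    · norm_num
  have hI : HasProd (fun p : ℕ => (h p)⁻¹) (∏ p ∈ s, (h p)⁻¹) := by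
    apply hasProd_prod_of_ne_finset_one
    intro p hp
    rw [hs, mem_insert, mem_filter, Nat.mem_primeFactors, not_or] at hp
    simp only [hh]
    rw [if_neg hp.1, if_neg, inv_one]
    rintro ⟨h1, h2, h3⟩
    exact hp.2 ⟨⟨h1, h3, by omega⟩, h2⟩
  have hprod := hF.mul hI
  have hfun : (fun p : ℕ => (Pr.mulIndicator (fun p : ℕ => Uni.locT {0, d} p)) p * (h p)⁻¹) = g := by
    funext p
    by_cases hp : p.Prime
    · have : p ∈ Pr := hp
      rw [Set.mulIndicator_of_mem this, hloc p hp, mul_assoc, mul_inv_cancel₀ (hnz p), mul_one]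
    · have : p ∉ Pr := hp
      rw [Set.mulIndicator_of_notMem this, hg1 p (fun h => hp h.1), one_mul]
      simp only [hh]
      rw [if_neg, if_neg, inv_one]
      · exact fun h => hp h.1
      · rintro rfl
        exact hp Nat.prime_two
  rw [hfun] at hprod
  have hval : ∏ p ∈ s, h p = 2 * ∏ p ∈ d.primeFactors.filter (fun p : ℕ => 2 < p), (((p : ℝ) - 1) / ((p : ℝ) - 2)) := by
    rw [hs, prod_insert (by simp)]
    congr 1
    apply prod_congr rfl
    intro p hp
    rw [mem_filter, Nat.mem_primeFactors] at hp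
    simp only [hh]
    rw [if_neg (by omega), if_pos ⟨hp.1.1, hp.2, hp.1.2.1⟩]
  have h4 := hprod.tprod_eq
  rw [← hC2, prod_inv_distrib] at h4
  unfold SP
  rw [h4]
  have h5 : ∏ p ∈ s, h p ≠ 0 := prod_ne_zero_iff.2 fun p _ => hnz p
  have e : 2 * (Uni.CT {0, d} * (∏ p ∈ s, h p)⁻¹) * ∏ p ∈ d.primeFactors.filter (fun p : ℕ => 2 < p), (((p : ℝ) - 1) / ((p : ℝ) - 2))
     = Uni.CT {0, d} * ((∏ p ∈ s, h p)⁻¹ * (2 * ∏ p ∈ d.primeFactors.filter (fun p : ℕ => 2 < p), (((p : ℝ) - 1) / ((p : ℝ) - 2)))) := by ring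
  rw [e, ← hval, inv_mul_cancel₀ h5, mul_one]

lemma even_of_CT {d : ℕ} (h : 0 < Uni.CT {0, d}) : Even d := by
  rw [CT_pos_iff] at h
  have := h 2 Nat.prime_two
  rw [nuT_pair Nat.prime_two] at this
  split_ifs at this with h2
  · exact even_iff_two_dvd.2 h2
  · omega

end Pool.Agent.TH891.SG
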