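import Mathlib
import Pool.Agent.TH891.SG.Pr2

set_option autoImplicit false

/-! Pairs: many differences with the predicted count, helper891. -/

namespace Pool.Agent.TH891.SG

open Finset Filter Topology Pool.Agent.H387R2

/-- pairs, natural `N` -/
theorem pairs_good {δ η₀ : ℝ} (hδ : 0 < δ) (hη₀ : 0 < η₀) (hη₁ : η₀ ≤ 1) : ∃ κ : ℝ, 0 < κ ∧
    ∀ᶠ N : ℕ in atTop, ∀ ε : ℝ, -(1 - η₀) / Real.log N ≤ ε → ε ≤ 1 →
      κ * (ε + 1 / Real.log N) ^ (1 + δ) * Real.log N ^ 2 ≤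
        ((gD 1 N (HN 1 N) ((1 - ε + (η₀ / 8) / Real.log N) * (N / Real.log N ^ 2))).card : ℝ) := by
  classical
  obtain ⟨n, hn⟩ := exists_nat_ge (1 / δ)
  have hnδ : 1 / ((n + 1 : ℕ) : ℝ) ≤ δ := by
    rw [div_le_iff₀ (by positivity)]
    rw [div_le_iff₀ hδ] at hn
    push_cast
    nlinarith
  obtain ⟨B, hB, hup⟩ := Pool.Agent.W218.TX.pi_upper 1
  obtain ⟨κ, hκ, hcard⟩ := card_of_weight 1 (n + 1) (by omega) hB
  set η : ℝ := η₀ / 8 with hη
  have hη0 : 0 < η := by positivity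
  have tN : Tendsto (fun N : ℕ => (N : ℝ)) atTop atTop := tendsto_natCast_atTop_atTop
  have tL : Tendsto (fun N : ℕ => Real.log (N : ℝ)) atTop atTop := Real.tendsto_log_atTop.comp tN
  refine ⟨κ * (1 / 4) ^ (1 + δ) * (1 / 2), by positivity, ?_⟩
  filter_upwards [many1 (η := η) hη0 (by linarith), avg_up1 (η := η) hη0, hup 2, tL.eventually_ge_atTop 2,
    eventually_ge_atTop 1] with N h1 h2 h3 hL2 hN1
  intro ε hε hε1
  set L := Real.log (N:ℝ) with hL
  have hL0 : 0 < L := by linarith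
  have hN0 : (0:ℝ) < N := by exact_mod_cast hN1
  set H := HN 1 N with hH
  have hLi : 0 < 1 / L := by positivity
  have hLi1 : 1 / L ≤ 1 / 2 := by
    rw [div_le_div_iff₀ hL0 (by norm_num)]; linarith
  have hHle : (H:ℝ) ≤ L ^ 2 := HN_le 1 N hN1
  have hH2 : L ^ 2 - 1 ≤ H := HN_ge 1 N
  have hH3 : L ^ 2 / 2 ≤ H := by nlinarith
  have hH0 : (0:ℝ) < H := lt_of_lt_of_le (by positivity) hH3
  have eε : -(1 - η₀) / L = -(1 / L) + η₀ * (1 / L) := by ring
  rw [eε] at hε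
  have hεL : η₀ * (1 / L) ≤ ε + 1 / L := by linarith
  have hεpos : 0 < ε + 1 / L := lt_of_lt_of_le (by positivity) hεL
  set σ : ℝ := 1 - ε + η / L with hσ
  have hηL : η / L = η * (1 / L) := by ring
  have hη18 : η * (1 / L) ≤ 1 / 16 := by nlinarith
  have hσ0 : 0 ≤ σ := by
    rw [hσ, hηL]
    have : 0 ≤ η * (1 / L) := by positivity
    linarith
  have hσ2 : σ ≤ 2 := by
    rw [hσ, hηL]
    have : -(1 / L) ≤ ε := by
      have : 0 ≤ η₀ * (1 / L) := by positivity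
      linarith
    linarith
  set V : ℝ := N / L ^ 2 with hV
  have hV0 : 0 < V := by positivity
  have hw := weight_gen 1 N H (B := B) (V := V) (P := (H:ℝ) ^ 2 / 2) (a := 1 + (1 - η) / L) (b := 1 + η / L)
    (σ := σ) hV0 hσ0 h1 h2 (by
      intro T hT
      rw [mem_powersetCard] at hT
      apply h3 T hT.2
      intro t ht
      have h5 := mem_range.1 (hT.1 ht)
      rw [show (2:ℝ) = ((2:ℕ):ℝ) by norm_num, Real.rpow_natCast]
      have h6 : (t:ℝ) ≤ H := by exact_mod_cast h5.le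
      exact h6.trans hHle)
  have hu : 1 / 2 * (ε + 1 / L) ≤ 1 + (1 - η) / L - σ * (1 + η / L) := by
    have e1 : 1 + (1 - η) / L - σ * (1 + η / L) = (ε + 1 / L) - 2 * (η * (1 / L)) - σ * (η * (1 / L)) := by
      rw [hσ]; ring
    rw [e1]
    have e2 : σ * (η * (1 / L)) ≤ 2 * (η * (1 / L)) := mul_le_mul_of_nonneg_right hσ2 (by positivity)
    have e3 : 8 * (η * (1 / L)) = η₀ * (1 / L) := by rw [hη]; ring
    linarith
  have hG := hcard H (gT 1 N H (σ * V)) (gT_sub 1 N H _) (1 / 2 * (ε + 1 / L)) (by positivity) (by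
    have hfac : ((1 + 1).factorial : ℝ) = 2 := by norm_num
    rw [hfac]
    refine le_trans ?_ hw
    exact mul_le_mul_of_nonneg_left hu (by positivity))
  have hle : ((gT 1 N H (σ * V)).card : ℝ) ≤ H * ((gD 1 N H (σ * V)).card : ℝ) := by
    exact_mod_cast gT_le 1 N H (σ * V)
  have hfinal : κ * (1 / 2 * (ε + 1 / L)) ^ (1 + 1 / ((n + 1 : ℕ) : ℝ)) * H ≤ ((gD 1 N H (σ * V)).card : ℝ) := by
    have : (κ * (1 / 2 * (ε + 1 / L)) ^ (1 + 1 / ((n + 1 : ℕ) : ℝ)) * H) * H ≤ ((gD 1 N H (σ * V)).card : ℝ) * H := by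
      calc (κ * (1 / 2 * (ε + 1 / L)) ^ (1 + 1 / ((n + 1 : ℕ) : ℝ)) * H) * H =
          κ * (1 / 2 * (ε + 1 / L)) ^ (1 + 1 / ((n + 1 : ℕ) : ℝ)) * H ^ (1 + 1) := by ring
        _ ≤ _ := hG
        _ ≤ _ := by linarith
    exact le_of_mul_le_mul_right this hH0
  refine le_trans ?_ hfinal
  have hpow : (1 / 4) ^ (1 + δ) * (ε + 1 / L) ^ (1 + δ) ≤ (1 / 2 * (ε + 1 / L)) ^ (1 + 1 / ((n + 1 : ℕ) : ℝ)) := by
    rw [← Real.mul_rpow (by norm_num) hεpos.le]
    calc (1 / 4 * (ε + 1 / L)) ^ (1 + δ) ≤ (1 / 4 * (ε + 1 / L)) ^ (1 + 1 / ((n + 1 : ℕ) : ℝ)) :=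
          Real.rpow_le_rpow_of_exponent_ge (by positivity) (by linarith) (by linarith)
      _ ≤ _ := Real.rpow_le_rpow (by positivity) (by linarith) (by positivity)
  calc κ * (1 / 4) ^ (1 + δ) * (1 / 2) * (ε + 1 / L) ^ (1 + δ) * L ^ 2
      = κ * ((1 / 4) ^ (1 + δ) * (ε + 1 / L) ^ (1 + δ)) * (L ^ 2 / 2) := by ring
    _ ≤ κ * (1 / 2 * (ε + 1 / L)) ^ (1 + 1 / ((n + 1 : ℕ) : ℝ)) * H := by
        apply mul_le_mul _ hH3 (by positivity) (by positivity)
        exact mul_le_mul_of_nonneg_left hpow hκ.le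

/-- the number of primes `p ≤ x` with `p - d` prime -/
noncomputable def pi2 (x : ℝ) (d : ℕ) : ℕ :=
  ((Icc 1 ⌊x⌋₊).filter (fun p : ℕ => p.Prime ∧ (p - d).Prime)).card

lemma pc_le_pi2 (x : ℝ) (d : ℕ) : pc {0, d} ⌊x⌋₊ ≤ pi2 x d + d := by
  classical
  unfold pc pi2
  set N := ⌊x⌋₊ with hN
  have h1 : ((Icc 1 N).filter (fun m => ∀ s ∈ ({0, d} : Finset ℕ), (m + s).Prime)).card ≤
      ((((Icc 1 N).filter (fun p : ℕ => p.Prime ∧ (p - d).Prime))) ∪ (Ioc N (N + d))).card := by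
    apply card_le_card_of_injOn (fun m => m + d)
    · intro m hm
      rw [mem_coe, mem_filter, mem_Icc] at hm
      rw [mem_coe, mem_union, mem_filter, mem_Icc, mem_Ioc]
      beta_reduce
      have a1 := hm.2 0 (by simp)
      have a2 := hm.2 d (by simp)
      rw [add_zero] at a1
      by_cases h : m + d ≤ N
      · left
        refine ⟨⟨by omega, h⟩, a2, ?_⟩
        rw [Nat.add_sub_cancel]; exact a1
      · right; omega
    · intro a _ b _ h
      exact Nat.add_right_cancel h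
  refine h1.trans ((card_union_le _ _).trans ?_)
  rw [Nat.card_Ioc]
  omega

/-- pairs, real `x`, in the notation of the question -/
theorem pairs_real {δ η₀ : ℝ} (hδ : 0 < δ) (hη₀ : 0 < η₀) (hη₁ : η₀ ≤ 1) : ∃ κ : ℝ, 0 < κ ∧ ∃ X : ℝ,
    ∀ x : ℝ, X ≤ x → ∀ ε : ℝ, -(1 - η₀) / Real.log x ≤ ε → ε ≤ 1 →
      κ * (ε + 1 / Real.log x) ^ (1 + δ) * Real.log x ^ 2 ≤
        (((Icc 2 ⌊Real.log x ^ 2⌋₊).filter (fun d : ℕ => Even d ∧
          (1 - ε) * (SP d * x / Real.log x ^ 2) ≤ pi2 x d)).card : ℝ) := by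
  classical
  obtain ⟨κ, hκ, h⟩ := pairs_good hδ hη₀ hη₁
  refine ⟨κ * (1 / 4), by positivity, ?_⟩
  have tN : Tendsto (fun N : ℕ => (N : ℝ)) atTop atTop := tendsto_natCast_atTop_atTop
  have tL : Tendsto (fun N : ℕ => Real.log (N : ℝ)) atTop atTop := Real.tendsto_log_atTop.comp tN
  have hev : ∀ᶠ N : ℕ in atTop, (∀ ε : ℝ, -(1 - η₀) / Real.log N ≤ ε → ε ≤ 1 →
      κ * (ε + 1 / Real.log N) ^ (1 + δ) * Real.log N ^ 2 ≤
        ((gD 1 N (HN 1 N) ((1 - ε + (η₀ / 8) / Real.log N) * (N / Real.log N ^ 2))).card : ℝ)) ∧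
      2 ≤ Real.log (N : ℝ) ∧ 2 ≤ N ∧ Real.log (N:ℝ) ^ ((7 : ℕ) : ℝ) ≤ η₀ / 32 * N ∧
      (∀ T : Finset ℕ, T.card = 1 + 1 → (∀ t ∈ T, t ≤ ⌊Real.log N ^ (2:ℝ)⌋₊) → Uni.Adm T →
      1 / (2 * Real.log N ^ 2) ≤ Uni.CT T) := by
    filter_upwards [h, tL.eventually_ge_atTop 2, eventually_ge_atTop 2,
      tN.eventually (Uni.log_pow_small ((7 : ℕ) : ℝ) (η := η₀ / 32) (by positivity)),
      Pool.Agent.W218.TX.CT_low 1 2] with N h1 h2 h3 h4 h5
    exact ⟨h1, h2, h3, h4, h5⟩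
  obtain ⟨N₀, hN₀⟩ := eventually_atTop.1 hev
  refine ⟨N₀ + 1, fun x hx ε hε hε1 => ?_⟩
  have hx0 : 0 ≤ x := le_trans (by positivity) hx
  set N := ⌊x⌋₊ with hN
  have hNx : (N:ℝ) ≤ x := Nat.floor_le hx0
  have hxN : x < N + 1 := Nat.lt_floor_add_one x
  have hNN : N₀ ≤ N := by
    have : (N₀:ℝ) < N + 1 := by linarith
    have h2 : N₀ < N + 1 := by exact_mod_cast this
    omega
  obtain ⟨h1, hL2, hN2, h7, hlow⟩ := hN₀ N hNN
  rw [Real.rpow_natCast] at h7
  set L := Real.log (N:ℝ) with hL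
  have hL0 : 0 < L := by linarith
  have hN2r : (2:ℝ) ≤ N := by exact_mod_cast hN2
  have hN0 : (0:ℝ) < N := by linarith
  have hLx : L ≤ Real.log x := Real.log_le_log hN0 hNx
  have hLx2 : Real.log x ≤ 2 * L := by
    calc Real.log x ≤ Real.log ((N:ℝ) ^ 2) := Real.log_le_log (by linarith) (by nlinarith)
      _ = 2 * L := by rw [Real.log_pow, hL]; norm_num
  have hX0 : 0 < Real.log x := by linarith
  have hinv : 1 / Real.log x ≤ 1 / L := one_div_le_one_div_of_le hL0 hLx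
  have hinv0 : 0 < 1 / Real.log x := by positivity
  have hinv2 : 1 / L ≤ 1 / 2 := by
    rw [div_le_div_iff₀ hL0 (by norm_num)]; linarith
  have eε : -(1 - η₀) / Real.log x = -((1 - η₀) * (1 / Real.log x)) := by ring
  have hεL : -(1 - η₀) / L ≤ ε := by
    refine le_trans ?_ hε
    rw [eε]
    have e2 : -(1 - η₀) / L = -((1 - η₀) * (1 / L)) := by ring
    rw [e2]
    have := mul_le_mul_of_nonneg_left hinv (by linarith : 0 ≤ 1 - η₀)
    linarith
  have hε2 : -1 ≤ ε := by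
    rw [eε] at hε
    have : (1 - η₀) * (1 / Real.log x) ≤ 1 * 1 := by
      apply mul_le_mul (by linarith) (by linarith) hinv0.le (by norm_num)
    linarith
  have h2 := h1 ε hεL hε1
  have hsub : gD 1 N (HN 1 N) ((1 - ε + (η₀ / 8) / L) * (N / L ^ 2)) ⊆
      ((Icc 2 ⌊Real.log x ^ 2⌋₊).filter (fun d : ℕ => Even d ∧
          (1 - ε) * (SP d * x / Real.log x ^ 2) ≤ pi2 x d)).image (fun d => {d}) := by
    intro D hD
    unfold gD at hD
    rw [mem_filter, mem_powersetCard] at hD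
    obtain ⟨⟨hDs, hDc⟩, hpos, hge⟩ := hD
    obtain ⟨d, rfl⟩ := card_eq_one.1 hDc
    have hd := mem_Icc.1 (hDs (mem_singleton_self d))
    rw [mem_image]
    refine ⟨d, ?_, rfl⟩
    have hpos' : 0 < Uni.CT {0, d} := hpos
    have heven := even_of_CT hpos'
    have hHd : (d:ℝ) ≤ L ^ 2 := by
      have : (d:ℝ) ≤ HN 1 N := by exact_mod_cast hd.2
      exact this.trans (HN_le 1 N (by omega))
    rw [mem_filter, mem_Icc]
    refine ⟨⟨hd.1, ?_⟩, heven, ?_⟩
    · apply Nat.le_floor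
      exact hHd.trans (pow_le_pow_left₀ hL0.le hLx _)
    · rw [← CT_pair hd.1 heven]
      have hge' : (1 - ε + η₀ / 8 / L) * (N / L ^ 2) * Uni.CT {0, d} ≤ pc {0, d} N := hge
      have hpc : (pc {0, d} N : ℝ) ≤ pi2 x d + d := by exact_mod_cast pc_le_pi2 x d
      have hCTlow := hlow {0, d} (card_pair (by omega)) (by
        intro t ht
        apply Nat.le_floor
        rw [show (2:ℝ) = ((2:ℕ):ℝ) by norm_num, Real.rpow_natCast]
        rw [mem_insert, mem_singleton] at ht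
        rcases ht with rfl | rfl
        · push_cast; positivity
        · exact hHd) ((CT_pos_iff _).1 hpos')
      have i1 : x / Real.log x ^ 2 ≤ (N + 1) / L ^ 2 := by
        apply div_le_div₀ (by positivity) hxN.le (by positivity)
        exact pow_le_pow_left₀ hL0.le hLx _
      have i2 : (1 - ε) * ((N + 1) / L ^ 2) * Uni.CT {0, d} + d ≤
          (1 - ε + η₀ / 8 / L) * (N / L ^ 2) * Uni.CT {0, d} := by
        have j1 : (1 - ε) / L ^ 2 * Uni.CT {0, d} ≤ 2 * Uni.CT {0, d} := by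
          apply mul_le_mul_of_nonneg_right _ hpos'.le
          rw [div_le_iff₀ (by positivity)]
          nlinarith
        have j2 : (d:ℝ) ≤ 2 * L ^ 4 * Uni.CT {0, d} := by
          have : L ^ 2 = 2 * L ^ 4 * (1 / (2 * L ^ 2)) := by field_simp
          calc (d:ℝ) ≤ L ^ 2 := hHd
            _ = 2 * L ^ 4 * (1 / (2 * L ^ 2)) := this
            _ ≤ _ := mul_le_mul_of_nonneg_left hCTlow (by positivity)
        have j3 : 2 + 2 * L ^ 4 ≤ η₀ / 8 / L * (N / L ^ 2) := by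
          have e : η₀ / 8 / L * (N / L ^ 2) = (η₀ / 8 * N) / L ^ 3 := by field_simp
          rw [e, le_div_iff₀ (by positivity)]
          have k1 : (2 + 2 * L ^ 4) * L ^ 3 ≤ 4 * L ^ 7 := by
            have k2 : (1:ℝ) ≤ L ^ 4 := one_le_pow₀ (by linarith)
            have k3 : (2 + 2 * L ^ 4) * L ^ 3 ≤ (2 * L ^ 4 + 2 * L ^ 4) * L ^ 3 := by
              apply mul_le_mul_of_nonneg_right _ (by positivity)
              linarith
            refine k3.trans (le_of_eq (by ring))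
          linarith
        have j4 : (1 - ε + η₀ / 8 / L) * (N / L ^ 2) * Uni.CT {0, d} =
            (1 - ε) * (N / L ^ 2) * Uni.CT {0, d} + (η₀ / 8 / L * (N / L ^ 2)) * Uni.CT {0, d} := by ring
        have j5 : (1 - ε) * ((N + 1) / L ^ 2) * Uni.CT {0, d} =
            (1 - ε) * (N / L ^ 2) * Uni.CT {0, d} + (1 - ε) / L ^ 2 * Uni.CT {0, d} := by ring
        have j6 := mul_le_mul_of_nonneg_right j3 hpos'.le
        rw [j4, j5]
        linarith
      have i3 : (1 - ε) * (Uni.CT {0, d} * x / Real.log x ^ 2) ≤ (1 - ε) * ((N + 1) / L ^ 2) * Uni.CT {0, d} := by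
        calc (1 - ε) * (Uni.CT {0, d} * x / Real.log x ^ 2) =
            (1 - ε) * (x / Real.log x ^ 2) * Uni.CT {0, d} := by ring
          _ ≤ _ := by
            apply mul_le_mul_of_nonneg_right _ hpos'.le
            exact mul_le_mul_of_nonneg_left i1 (by linarith)
      linarith
  have hcard : ((gD 1 N (HN 1 N) ((1 - ε + (η₀ / 8) / L) * (N / L ^ 2))).card : ℝ) ≤
      (((Icc 2 ⌊Real.log x ^ 2⌋₊).filter (fun d : ℕ => Even d ∧
          (1 - ε) * (SP d * x / Real.log x ^ 2) ≤ pi2 x d)).card : ℝ) := by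
    exact_mod_cast (card_le_card hsub).trans card_image_le
  refine le_trans ?_ (h2.trans hcard)
  have j0 : 0 ≤ ε + 1 / Real.log x := by
    rw [eε] at hε
    have : (1 - η₀) * (1 / Real.log x) ≤ 1 * (1 / Real.log x) :=
      mul_le_mul_of_nonneg_right (by linarith) hinv0.le
    linarith
  have j1 : (ε + 1 / Real.log x) ^ (1 + δ) ≤ (ε + 1 / L) ^ (1 + δ) := by
    apply Real.rpow_le_rpow j0 _ (by linarith)
    linarith
  have j2 : 1 / 4 * Real.log x ^ 2 ≤ L ^ 2 := by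
    nlinarith
  calc κ * (1 / 4) * (ε + 1 / Real.log x) ^ (1 + δ) * Real.log x ^ 2
      = κ * (ε + 1 / Real.log x) ^ (1 + δ) * (1 / 4 * Real.log x ^ 2) := by ring
    _ ≤ κ * (ε + 1 / L) ^ (1 + δ) * L ^ 2 := by
        have j3 : 0 ≤ (ε + 1 / L) ^ (1 + δ) := Real.rpow_nonneg (by linarith) _
        apply mul_le_mul _ j2 (by positivity) (by positivity)
        exact mul_le_mul_of_nonneg_left j1 hκ.le

end Pool.Agent.TH891.SG
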